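import Pool.Agent.Helper19.PS.Defs

/-!
# Project PQ (MP_19c155_gt, Q2 for unit fields): definitions
-/

open MeasureTheory Set Metric Filter Module Matrix
open scoped NNReal Topology RealInnerProductSpace ENNReal Real

namespace Pool.Agent.Helper19.PQ

open Pool.Agent.Helper19.PS (NP)

/-- the Gram matrix of the operators of the pencil `(A, -1, a)` at `ξ`. -/
def Gr {d : ℕ} (A : Matrix (Fin d) (Fin d) ℝ) (a : Fin d → ℝ) (ξ : Fin 2 ⊕ Fin d → ℝ) :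
    Matrix (Fin d) (Fin d) ℝ :=
  Matrix.of fun i j => (NP A (-1) a i *ᵥ ξ) ⬝ᵥ (NP A (-1) a j *ᵥ ξ)

/-- the quadratic form of the orthonormalised pencil. -/
noncomputable def qd {d : ℕ} (A : Matrix (Fin d) (Fin d) ℝ) (a : Fin d → ℝ)
    (ξ : Fin 2 ⊕ Fin d → ℝ) : ℝ :=
  trace ((1 + A * Aᵀ + vecMulVec a a)⁻¹ * Gr A a ξ)

/-- the deficit `β(A, a)`. -/
noncomputable def bet {d : ℕ} (A : Matrix (Fin d) (Fin d) ℝ) (a : Fin d → ℝ) : ℝ :=
  sInf ((fun ξ : EuclideanSpace ℝ (Fin 2 ⊕ Fin d) => (d : ℝ) - qd A a ξ.ofLp)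
    '' sphere (0 : EuclideanSpace ℝ (Fin 2 ⊕ Fin d)) 1)

end Pool.Agent.Helper19.PQ
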