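import Mathlib
import Pool.Agent.Helper28.PQ.P1
import Pool.Agent.Helper52.PQ.P2
import Pool.Agent.Helper19.PS.Sharp

/-!
# Project PQ: the sharp bound for general pencils with a gap
(adapted from `PS/Sharp.lean`, `PS/SharpB.lean`)
-/

open MeasureTheory Set Metric Filter Module Matrix
open scoped NNReal Topology RealInnerProductSpace ENNReal Real

namespace Pool.Agent.Helper19.PQ

open Pool.Agent.Helper20.VF Pool.Agent.Helper19.PS


variable {n : ℕ}

lemma conj_one_add {d : ℕ} (R A : Matrix (Fin d) (Fin d) ℝ) (a : Fin d → ℝ) :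
    R * (1 + A * Aᵀ + vecMulVec a a) * Rᵀ
      = (R * A) * (R * A)ᵀ + (R * (-1)) * (R * (-1))ᵀ + vecMulVec (R *ᵥ a) (R *ᵥ a) := by
  rw [Matrix.mul_add, Matrix.add_mul, Matrix.mul_add, Matrix.add_mul, mul_vecMulVec, vecMulVec_mul,
    vecMul_transpose]
  simp only [transpose_mul, Matrix.mul_assoc, Matrix.mul_one, transpose_neg, transpose_one,
    Matrix.mul_neg, Matrix.neg_mul, neg_neg, Matrix.one_mul]
  exact congrArg (· + _) (add_comm _ _)

/-- **The second region for pencils, with the gap.** -/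
theorem regionII_pencil_gap (m : ℕ) (hm : 3 ≤ m) (hn : n + 1 = 2 * m)
    (P₁ P₂ : Matrix (Fin (n + 1)) (Fin (n + 1)) ℝ) (a : Fin (n + 1) → ℝ)
    (hP : P₁ * P₁ᵀ + P₂ * P₂ᵀ + vecMulVec a a = 1) (φ : ℝ)
    (hφ : (n : ℝ) + 1 - be1 (n + 1) ≤ ∑ i, ((∑ j, Qc P₁ P₂ φ i j ^ 2) + a i ^ 2)) (t : ℝ)
    (ht : ∀ ξ : Fin 2 ⊕ Fin (n + 1) → ℝ, ξ ⬝ᵥ ξ = 1 →
      t ≤ (n : ℝ) + 1 - ∑ i, (NP P₁ P₂ a i *ᵥ ξ) ⬝ᵥ (NP P₁ P₂ a i *ᵥ ξ)) :
    II (n + 1) (fun z₁ z₂ y => √((Gm P₁ P₂ a y.ofLp z₁ z₂).det))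
      ≤ ENNReal.ofReal (Kp (n + 1) * (1 - max t 0 / 100)) := by
  have hζ : PS.vec (Real.cos φ) (Real.sin φ) (0 : Fin (n + 1) → ℝ)
      ⬝ᵥ PS.vec (Real.cos φ) (Real.sin φ) (0 : Fin (n + 1) → ℝ) = 1 := by
    simp only [PS.vec, dotProduct, Fintype.sum_sum_type, Fin.sum_univ_two, Sum.elim_inl, Sum.elim_inr,
      Pi.zero_apply, mul_zero, Finset.sum_const_zero, add_zero]
    simp only [Matrix.cons_val_zero, Matrix.cons_val_one]
    have := Real.cos_sq_add_sin_sq φ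
    nlinarith
  obtain ⟨S, O, hO, hbe, hG⟩ := exists_NF (NP P₁ P₂ a) (fun i => NP_skew P₁ P₂ a i)
    (fun i j => by
      rw [NP_trace, hP, Matrix.one_apply]
      split_ifs <;> simp) _ hζ
  rw [NP_zeta] at hbe
  have hbe' : S.be ≤ be1 (n + 1) := by
    have h1 := hφ.trans hbe
    push_cast at h1
    linarith
  have htS : t ≤ S.be := by
    have h1 : (O *ᵥ PS.vec 1 0 0) ⬝ᵥ (O *ᵥ PS.vec 1 0 0) = 1 := by
      rw [Matrix.dotProduct_mulVec, Matrix.vecMul_mulVec, hO, Matrix.vecMul_one]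
      simp [PS.vec, dotProduct, Fintype.sum_sum_type, Fin.sum_univ_two]
    have h2 := ht _ h1
    have h3 : ∑ i, (NP P₁ P₂ a i *ᵥ (O *ᵥ PS.vec 1 0 0)) ⬝ᵥ (NP P₁ P₂ a i *ᵥ (O *ᵥ PS.vec 1 0 0))
        = (n : ℝ) + 1 - S.be := by
      have h4 := S.top
      push_cast at h4
      rw [← h4]
      refine Finset.sum_congr rfl fun i _ => ?_
      rw [hG]
      simp [NF.G, NF.w]
    linarith
  have hGm : II (n + 1) (fun z₁ z₂ y => √((Gm P₁ P₂ a y.ofLp z₁ z₂).det))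
      = II (n + 1) (fun z τ y => √((S.G z τ y.ofLp).det)) := by
    have h1 := II_rot O hO (fun x => √((Matrix.of fun i j =>
      (NP P₁ P₂ a i *ᵥ x) ⬝ᵥ (NP P₁ P₂ a j *ᵥ x)).det)) (continuous_gram _).measurable
      (fun _ => Real.sqrt_nonneg _)
    have h2 : ∀ (z τ : ℝ) (y : Fin (n + 1) → ℝ),
        (Matrix.of fun i j => (NP P₁ P₂ a i *ᵥ (O *ᵥ PS.vec z τ y)) ⬝ᵥ (NP P₁ P₂ a j *ᵥ (O *ᵥ PS.vec z τ y)))
          = S.G z τ y := by
      intro z τ y
      ext i j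
      rw [Matrix.of_apply, hG]
    simp only [h2] at h1
    rw [h1]
    exact II_congr fun z τ y => by rw [Gm_eq_NP]
  rw [hGm]
  clear hGm hG hbe hφ hP hζ
  have hb0 := NF.be_nonneg S
  have hmax : max t 0 ≤ S.be := max_le htS hb0
  clear htS ht
  generalize max t 0 = t' at hmax ⊢
  -- change `n + 1` to `2 * m`
  revert S
  rw [hn]
  intro S hbe hb0 ht
  refine (regionII_NF m hm S hbe).trans (ENNReal.ofReal_le_ofReal ?_)
  have hK : 0 ≤ Kp (2 * m) := by
    have h1 := gm_pos (2 * (2 * m))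
    have h2 := gm_pos (2 * (2 * m) - 1)
    have h3 := gm_pos (2 * m - 1)
    unfold Kp
    positivity
  nlinarith

/-- **The second region for pencils, with the weight `|e|` and the gap.** -/
theorem regionII_weight_gap (m : ℕ) (hm : 3 ≤ m) (hn : n + 1 = 2 * m)
    (P₁ P₂ : Matrix (Fin (n + 1)) (Fin (n + 1)) ℝ) (a : Fin (n + 1) → ℝ)
    (hP : P₁ * P₁ᵀ + P₂ * P₂ᵀ + vecMulVec a a = 1) (φ : ℝ)
    (hφ : (n : ℝ) + 1 - be1 (n + 1) ≤ ∑ i, ((∑ j, Qc P₁ P₂ φ i j ^ 2) + a i ^ 2)) (t : ℝ)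
    (ht : ∀ ξ : Fin 2 ⊕ Fin (n + 1) → ℝ, ξ ⬝ᵥ ξ = 1 →
      t ≤ (n : ℝ) + 1 - ∑ i, (NP P₁ P₂ a i *ᵥ ξ) ⬝ᵥ (NP P₁ P₂ a i *ᵥ ξ)) :
    ∫⁻ p : ℝ × ℝ, ∫⁻ y : EuclideanSpace ℝ (Fin (n + 1)), ENNReal.ofReal (√(p.1 ^ 2 + p.2 ^ 2 + ‖y‖ ^ 2)
        * √((Gm P₁ P₂ a y.ofLp p.1 p.2).det)
        * (gw y * Real.exp (-(p.1 ^ 2 + p.2 ^ 2) / 2))) ≤ ENNReal.ofReal (KS n * (1 - max t 0 / 100)) := by
  have h1 := II_weight (d := n + 1) (n + 1)
    (fun z₁ z₂ y => √((Gm P₁ P₂ a y.ofLp z₁ z₂).det)) (continuous_Gm' P₁ P₂ a).measurable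
    (fun _ _ _ => Real.sqrt_nonneg _) (fun z τ y r hr => by
      have e : (r • y).ofLp = r • y.ofLp := rfl
      rw [e, Gm_smul, det_smul, Fintype.card_fin, Real.sqrt_mul (by positivity)]
      congr 1
      rw [← pow_mul, mul_comm 2, pow_mul, Real.sqrt_sq (by positivity)])
  refine h1.trans ((mul_le_mul_right (regionII_pencil_gap m hm hn P₁ P₂ a hP φ hφ t ht) _).trans ?_)
  rw [← ENNReal.ofReal_mul (div_pos (gm_pos _) (gm_pos _)).le, KS]
  have e1 : n + 1 + 2 + (n + 1) = 2 * n + 4 := by ring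
  have e2 : n + 1 + 1 + (n + 1) = 2 * n + 3 := by ring
  rw [e1, e2, mul_assoc]

/-- the sharp bound with a gap for nondegenerate pencils. -/
theorem gen_bound_ND_gap (m : ℕ) (hm : 3 ≤ m) (hn : n + 1 = 2 * m) (hn3 : 3 ≤ n)
    (A : Matrix (Fin (n + 1)) (Fin (n + 1)) ℝ) (hA : ND hn3 A) (a : Fin (n + 1) → ℝ) :
    ∫⁻ p : ℝ × ℝ, ∫⁻ y : EuclideanSpace ℝ (Fin (n + 1)), ENNReal.ofReal (√(p.1 ^ 2 + p.2 ^ 2 + ‖y‖ ^ 2)
        * √((Gm A (-1) a y.ofLp p.1 p.2).det)
        * (gw y * Real.exp (-(p.1 ^ 2 + p.2 ^ 2) / 2)))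
      ≤ ENNReal.ofReal (KS n * √((1 + A * Aᵀ + vecMulVec a a).det)
        * (1 - 1 / (128 * (m : ℝ) ^ 2) * min (bet A a) 1)) := by
  have hm3 : (3 : ℝ) ≤ m := by exact_mod_cast hm
  have hgm0 : 0 ≤ 1 / (128 * (m : ℝ) ^ 2) := by positivity
  have hgm1 : 1 / (128 * (m : ℝ) ^ 2) ≤ 1 / 100 :=
    one_div_le_one_div_of_le (by norm_num) (by nlinarith)
  set gam : ℝ := 1 / (128 * (m : ℝ) ^ 2) with hgam
  have hn5 : 5 ≤ n := by omega
  have hKS0 : 0 ≤ KS n := by
    have h1 := gm_pos (2 * n + 4)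
    have h2 := gm_pos (2 * n + 3)
    have h3 := gm_pos (2 * (n + 1))
    have h4 := gm_pos (2 * (n + 1) - 1)
    have h5 := gm_pos (n + 1 - 1)
    unfold KS Kp
    positivity
  -- the normalising matrix
  have hS : (1 + A * Aᵀ).PosDef := by
    refine Matrix.PosDef.add_posSemidef Matrix.PosDef.one ?_
    have := Matrix.posSemidef_self_mul_conjTranspose A
    rwa [conjTranspose_eq_transpose_of_trivial] at this
  obtain ⟨B, hB⟩ := posSemidef_eq hS.posSemidef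
  have hSdet : 0 < (1 + A * Aᵀ).det := hS.det_pos
  have hBdet : B.det ≠ 0 := by
    intro h
    rw [hB, det_mul, h, mul_zero] at hSdet
    exact lt_irrefl _ hSdet
  obtain ⟨O, s, hO, hOu⟩ := exists_orth ((Bᵀ)⁻¹ *ᵥ a)
  set M : Matrix (Fin (n + 1)) (Fin (n + 1)) ℝ := O * (Bᵀ)⁻¹ with hMdef
  have hBt : IsUnit (Bᵀ).det := by rw [det_transpose]; exact isUnit_iff_ne_zero.2 hBdet
  have hBu : IsUnit B.det := isUnit_iff_ne_zero.2 hBdet
  have hMSM : M * (1 + A * Aᵀ) * Mᵀ = 1 := by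
    rw [hB, hMdef, transpose_mul, transpose_nonsing_inv, transpose_transpose]
    calc O * (Bᵀ)⁻¹ * (Bᵀ * B) * (B⁻¹ * Oᵀ)
        = O * ((Bᵀ)⁻¹ * Bᵀ) * (B * B⁻¹) * Oᵀ := by simp only [Matrix.mul_assoc]
      _ = 1 := by
        rw [nonsing_inv_mul _ hBt, mul_nonsing_inv _ hBu, Matrix.mul_one, Matrix.mul_one, hO]
  have hMa : M *ᵥ a = s • Pi.single (Fin.last n) 1 := by
    rw [hMdef, ← mulVec_mulVec, hOu]
  have hP : (M * A) * (M * A)ᵀ + (M * (-1)) * (M * (-1))ᵀ = 1 := by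
    refine Eq.trans ?_ hMSM
    clear_value M
    rw [transpose_mul, transpose_mul, transpose_neg, transpose_one, Matrix.mul_add,
      Matrix.add_mul, Matrix.mul_one]
    simp only [Matrix.mul_assoc, Matrix.mul_neg, Matrix.neg_mul, Matrix.mul_one, Matrix.one_mul,
      neg_neg]
    exact add_comm _ _
  have hMdet : M.det ≠ 0 := by
    intro h
    have := congrArg Matrix.det hMSM
    rw [det_mul, det_mul, h, zero_mul, zero_mul, det_one] at this
    exact zero_ne_one this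
  have hMu : IsUnit M := (Matrix.isUnit_iff_isUnit_det M).2 (isUnit_iff_ne_zero.2 hMdet)
  have hpos := pos_of_ND hn3 A M hA hMu hP
  -- rewriting both sides
  have hdet1 : (1 : ℝ) + s ^ 2 = M.det ^ 2 * (1 + A * Aᵀ + vecMulVec a a).det := by
    have h1 : M * (1 + A * Aᵀ + vecMulVec a a) * Mᵀ
        = 1 + vecMulVec (s • Pi.single (Fin.last n) 1) (s • Pi.single (Fin.last n) (1 : ℝ)) := by
      rw [Matrix.mul_add, Matrix.add_mul, hMSM, mul_vecMulVec, vecMulVec_mul, vecMul_transpose, hMa]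
    have h2 := congrArg Matrix.det h1
    rw [det_mul, det_mul, det_transpose, det_one_add_vv] at h2
    have h3 : (s • Pi.single (Fin.last n) (1 : ℝ) : Fin (n + 1) → ℝ) ⬝ᵥ (s • Pi.single (Fin.last n) (1 : ℝ)) = s ^ 2 := by
      rw [smul_dotProduct, dotProduct_smul, single_dotProduct]
      simp
      ring
    rw [h3] at h2
    rw [← h2]; ring
  have hS2 : 0 ≤ (1 + A * Aᵀ + vecMulVec a a).det := by
    have : 0 ≤ M.det ^ 2 * (1 + A * Aᵀ + vecMulVec a a).det := by rw [← hdet1]; positivity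
    exact nonneg_of_mul_nonneg_right this (by positivity)
  -- the normalised sharp bound
  have hmain : ∫⁻ p : ℝ × ℝ, ∫⁻ y : EuclideanSpace ℝ (Fin (n + 1)), ENNReal.ofReal (√(p.1 ^ 2 + p.2 ^ 2 + ‖y‖ ^ 2)
        * √((Gm (M * A) (M * (-1)) (M *ᵥ a) y.ofLp p.1 p.2).det)
        * (gw y * Real.exp (-(p.1 ^ 2 + p.2 ^ 2) / 2))) ≤ ENNReal.ofReal (KS n * √(1 + s ^ 2) * (1 - gam * min (bet A a) 1)) := by
    obtain ⟨φ, be, hbe0, hφ, hb⟩ := norm_bound_gain hn5 (oneVarG hn5) hP hpos s hMa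
    rcases le_or_gt (be1 (n + 1)) be with hcase | hcase
    · -- the first region
      refine hb.trans (ENNReal.ofReal_le_ofReal ?_)
      have h1 := KN_le_KS m (by omega)
      have hnm : 2 * m - 1 = n := by omega
      rw [hnm] at h1
      have hmr : (2 : ℝ) * m = n + 1 := by exact_mod_cast hn.symm
      have hnr : (5 : ℝ) ≤ n := by exact_mod_cast hn5
      have h2 : 1 - be / (2 * n) ≤ 1 - 3 / 2 * (1 / (64 * (m : ℝ) ^ 2)) := by
        have h3 : be1 (n + 1) / (2 * n) ≤ be / (2 * n) :=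
          div_le_div_of_nonneg_right hcase (by positivity)
        have h4 : 3 / 2 * (1 / (64 * (m : ℝ) ^ 2)) ≤ be1 (n + 1) / (2 * n) := by
          have e1 : 64 * (m : ℝ) ^ 2 = 16 * ((n : ℝ) + 1) ^ 2 := by rw [← hmr]; ring
          rw [e1, be1]
          push_cast
          have e2 : 3 * ((n : ℝ) + 1 - 1) / (16 * ((n : ℝ) + 1) ^ 2) / (2 * n)
              = 3 / 2 * (1 / (16 * ((n : ℝ) + 1) ^ 2)) := by
            field_simp
            ring
          rw [e2]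
        linarith
      have hKN0 : 0 ≤ KN n := by
        have h1 := Zg_pos (E := EuclideanSpace ℝ (Fin (n + 1)))
        have h2 := gm_pos (n + 1)
        have h3 : 0 ≤ ∫ t in (0 : ℝ)..(2 * π), |Real.cos t| ^ n :=
          intervalIntegral.integral_nonneg (by positivity) (fun t _ => by positivity)
        unfold KN
        positivity
      have hg2 : gam = 1 / (64 * (m : ℝ) ^ 2) / 2 := by rw [hgam]; ring
      have hx1 : 1 / (64 * (m : ℝ) ^ 2) ≤ 1 / 50 :=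
        one_div_le_one_div_of_le (by norm_num) (by nlinarith)
      have hx0 : 0 ≤ 1 / (64 * (m : ℝ) ^ 2) := by positivity
      have h5 : 1 - 3 / 2 * (1 / (64 * (m : ℝ) ^ 2)) ≤ (1 - 1 / (64 * (m : ℝ) ^ 2)) * (1 - gam) := by
        rw [hg2]
        generalize 1 / (64 * (m : ℝ) ^ 2) = x at *
        nlinarith [sq_nonneg x]
      have h6 : 1 - gam ≤ 1 - gam * min (bet A a) 1 := by
        have := mul_le_mul_of_nonneg_left (min_le_right (bet A a) 1) hgm0
        linarith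
      calc KN n * √(1 + s ^ 2) * (1 - be / (2 * n))
          ≤ KN n * √(1 + s ^ 2) * ((1 - 1 / (64 * (m : ℝ) ^ 2)) * (1 - gam)) :=
            mul_le_mul_of_nonneg_left (h2.trans h5) (by positivity)
        _ = (KN n * (1 - 1 / (64 * (m : ℝ) ^ 2))) * √(1 + s ^ 2) * (1 - gam) := by ring
        _ ≤ KS n * √(1 + s ^ 2) * (1 - gam) :=
            mul_le_mul_of_nonneg_right (mul_le_mul_of_nonneg_right h1 (Real.sqrt_nonneg _))
              (by linarith)
        _ ≤ _ := mul_le_mul_of_nonneg_left h6 (by positivity)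
    · -- the second region
      set w : Fin (n + 1) → ℝ := fun i => if i = Fin.last n then (√(1 + s ^ 2))⁻¹ else 1 with hw
      set D : Matrix (Fin (n + 1)) (Fin (n + 1)) ℝ := Matrix.diagonal w with hD
      have hs0 : 0 < √(1 + s ^ 2) := Real.sqrt_pos.2 (by positivity)
      have hss : √(1 + s ^ 2) ^ 2 = 1 + s ^ 2 := Real.sq_sqrt (by positivity)
      have hwl : w (Fin.last n) = (√(1 + s ^ 2))⁻¹ := by simp [hw]
      have hwc : ∀ i : Fin n, w i.castSucc = 1 := fun i => by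
        simp [hw, (Fin.castSucc_lt_last i).ne]
      have hDdet : D.det = (√(1 + s ^ 2))⁻¹ := by
        rw [hD, det_diagonal, Fin.prod_univ_castSucc, hwl]
        simp [hwc]
      have hDT : Dᵀ = D := by rw [hD, diagonal_transpose]
      have hPD : (D * (M * A)) * (D * (M * A))ᵀ + (D * (M * (-1))) * (D * (M * (-1)))ᵀ
          + vecMulVec (D *ᵥ (M *ᵥ a)) (D *ᵥ (M *ᵥ a)) = 1 := by
        have h1 : (D * (M * A)) * (D * (M * A))ᵀ + (D * (M * (-1))) * (D * (M * (-1)))ᵀ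
            = D * ((M * A) * (M * A)ᵀ + (M * (-1)) * (M * (-1))ᵀ) * Dᵀ := by
          rw [transpose_mul D, transpose_mul D, Matrix.mul_add, Matrix.add_mul]
          simp only [Matrix.mul_assoc]
        rw [h1, hP, hMa, Matrix.mul_one, hDT, hD, diagonal_mul_diagonal]
        ext i j
        rw [Matrix.add_apply, vecMulVec_apply, mulVec_diagonal, mulVec_diagonal]
        by_cases hij : i = j
        · subst hij
          rw [diagonal_apply_eq, Matrix.one_apply_eq]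
          refine Fin.lastCases ?_ (fun i => ?_) i
          · rw [hwl]
            simp only [Pi.smul_apply, Pi.single_eq_same, smul_eq_mul, mul_one]
            field_simp
            rw [hss]
          · rw [hwc]
            simp [(Fin.castSucc_lt_last i).ne]
        · rw [diagonal_apply_ne _ hij, Matrix.one_apply_ne hij]
          by_cases hil : i = Fin.last n
          · have hjl : j ≠ Fin.last n := fun h => hij (hil.trans h.symm)
            simp [hjl]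
          · simp [hil]
      have hQ : ∀ i j, Qc (D * (M * A)) (D * (M * (-1))) φ i j
          = w i * Qc (M * A) (M * (-1)) φ i j := by
        intro i j
        have : Qc (D * (M * A)) (D * (M * (-1))) φ = D * Qc (M * A) (M * (-1)) φ := by
          rw [Qc, Qc, Matrix.mul_add, Matrix.mul_smul, Matrix.mul_smul]
        rw [this, hD, diagonal_mul]
      have hφ2 : (n : ℝ) + 1 - be1 (n + 1)
          ≤ ∑ i, ((∑ j, Qc (D * (M * A)) (D * (M * (-1))) φ i j ^ 2) + (D *ᵥ (M *ᵥ a)) i ^ 2) := by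
        have h1 : ∑ i, ((∑ j, Qc (D * (M * A)) (D * (M * (-1))) φ i j ^ 2) + (D *ᵥ (M *ᵥ a)) i ^ 2)
            = n + 1 - be := by
          rw [← hφ, Fin.sum_univ_castSucc]
          simp only [hQ]
          simp only [hMa, hD, mulVec_diagonal, hwl, hwc, one_mul]
          congr 1
          · refine Finset.sum_congr rfl fun i _ => ?_
            simp [(Fin.castSucc_lt_last i).ne]
          · simp only [Pi.smul_apply, Pi.single_eq_same, smul_eq_mul, mul_one, mul_pow, inv_pow, hss]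
            rw [← Finset.mul_sum]
            field_simp
        rw [h1]
        linarith
      have hbt : ∀ ξ : Fin 2 ⊕ Fin (n + 1) → ℝ, ξ ⬝ᵥ ξ = 1 →
          bet A a ≤ (n : ℝ) + 1 - ∑ i, (NP (D * (M * A)) (D * (M * (-1))) (D *ᵥ (M *ᵥ a)) i *ᵥ ξ)
            ⬝ᵥ (NP (D * (M * A)) (D * (M * (-1))) (D *ᵥ (M *ᵥ a)) i *ᵥ ξ) := by
        intro ξ hξ
        have e1 : (D * M) * (1 + A * Aᵀ + vecMulVec a a) * (D * M)ᵀ = 1 := by
          refine (conj_one_add (D * M) A a).trans (Eq.trans ?_ hPD)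
          simp only [Matrix.mul_assoc, mulVec_mulVec]
        have e2 := qd_eq A a (D * M) e1 ξ
        simp only [Matrix.mul_assoc, ← mulVec_mulVec] at e2
        rw [e2]
        have := bet_le A a ξ hξ
        push_cast at this
        exact this
      have h2 := regionII_weight_gap m hm hn (D * (M * A)) (D * (M * (-1))) (D *ᵥ (M *ᵥ a)) hPD φ hφ2
        (bet A a) hbt
      have hint : ∀ (p : ℝ × ℝ) (y : EuclideanSpace ℝ (Fin (n + 1))),
          ENNReal.ofReal (√(p.1 ^ 2 + p.2 ^ 2 + ‖y‖ ^ 2)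
            * √((Gm (M * A) (M * (-1)) (M *ᵥ a) y.ofLp p.1 p.2).det)
            * (gw y * Real.exp (-(p.1 ^ 2 + p.2 ^ 2) / 2)))
          = ENNReal.ofReal (√(1 + s ^ 2)) * ENNReal.ofReal (√(p.1 ^ 2 + p.2 ^ 2 + ‖y‖ ^ 2)
            * √((Gm (D * (M * A)) (D * (M * (-1))) (D *ᵥ (M *ᵥ a)) y.ofLp p.1 p.2).det)
            * (gw y * Real.exp (-(p.1 ^ 2 + p.2 ^ 2) / 2))) := by
        intro p y
        rw [← ENNReal.ofReal_mul hs0.le, Gm_conj (P₁ := M * A) (P₂ := M * (-1)) (a := M *ᵥ a) D,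
          det_mul _ Dᵀ, det_mul D, det_transpose, hDdet]
        congr 1
        have e1 : (√(1 + s ^ 2))⁻¹ * (Gm (M * A) (M * (-1)) (M *ᵥ a) y.ofLp p.1 p.2).det
            * (√(1 + s ^ 2))⁻¹ = (√(1 + s ^ 2))⁻¹ ^ 2
              * (Gm (M * A) (M * (-1)) (M *ᵥ a) y.ofLp p.1 p.2).det := by ring
        rw [e1, Real.sqrt_mul (sq_nonneg _), Real.sqrt_sq (inv_nonneg.2 hs0.le)]
        field_simp
      simp_rw [hint, lintegral_const_mul' _ _ ENNReal.ofReal_ne_top]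
      refine (mul_le_mul_right h2 _).trans ?_
      rw [← ENNReal.ofReal_mul hs0.le]
      refine ENNReal.ofReal_le_ofReal ?_
      have h7 : 1 - max (bet A a) 0 / 100 ≤ 1 - gam * min (bet A a) 1 := by
        have e1 : gam * min (bet A a) 1 ≤ gam * max (bet A a) 0 :=
          mul_le_mul_of_nonneg_left ((min_le_left _ _).trans (le_max_left _ _)) hgm0
        have e2 : gam * max (bet A a) 0 ≤ 1 / 100 * max (bet A a) 0 :=
          mul_le_mul_of_nonneg_right hgm1 (le_max_right _ _)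
        linarith
      calc √(1 + s ^ 2) * (KS n * (1 - max (bet A a) 0 / 100))
          = KS n * √(1 + s ^ 2) * (1 - max (bet A a) 0 / 100) := by ring
        _ ≤ _ := mul_le_mul_of_nonneg_left h7 (by positivity)
  have hint : ∀ (p : ℝ × ℝ) (y : EuclideanSpace ℝ (Fin (n + 1))), ENNReal.ofReal (√(p.1 ^ 2 + p.2 ^ 2 + ‖y‖ ^ 2)
        * √((Gm (M * A) (M * (-1)) (M *ᵥ a) y.ofLp p.1 p.2).det)
        * (gw y * Real.exp (-(p.1 ^ 2 + p.2 ^ 2) / 2)))
      = ENNReal.ofReal |M.det| * ENNReal.ofReal (√(p.1 ^ 2 + p.2 ^ 2 + ‖y‖ ^ 2)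
        * √((Gm A (-1) a y.ofLp p.1 p.2).det)
        * (gw y * Real.exp (-(p.1 ^ 2 + p.2 ^ 2) / 2))) := by
    intro p y
    rw [← ENNReal.ofReal_mul (abs_nonneg _), Gm_conj, det_mul, det_mul, det_transpose]
    congr 1
    have : M.det * (Gm A (-1) a y.ofLp p.1 p.2).det * M.det
        = M.det ^ 2 * (Gm A (-1) a y.ofLp p.1 p.2).det := by ring
    rw [this, Real.sqrt_mul (sq_nonneg _), Real.sqrt_sq_eq_abs]
    ring
  simp_rw [hint] at hmain
  have hne : ENNReal.ofReal |M.det| ≠ 0 := by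
    rw [Ne, ENNReal.ofReal_eq_zero, not_le]
    exact abs_pos.2 hMdet
  simp_rw [lintegral_const_mul' _ _ ENNReal.ofReal_ne_top] at hmain
  have hrhs : KS n * √(1 + s ^ 2) * (1 - gam * min (bet A a) 1)
      = |M.det| * (KS n * √((1 + A * Aᵀ + vecMulVec a a).det) * (1 - gam * min (bet A a) 1)) := by
    rw [hdet1, Real.sqrt_mul (sq_nonneg _), Real.sqrt_sq_eq_abs]
    ring
  rw [hrhs, ENNReal.ofReal_mul (abs_nonneg _)] at hmain
  exact (ENNReal.mul_le_mul_iff_right hne ENNReal.ofReal_ne_top).1 hmain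


end Pool.Agent.Helper19.PQ
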