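import Mathlib
import Pool.Agent.Helper52.PQ.P2
import Pool.Agent.Helper50.PQ.P3
import Pool.Agent.Helper84.PS.P18

/-!
# Project PQ, piece 4: rigidity of the pencils with zero deficit
-/

open MeasureTheory Set Metric Filter Module Matrix
open scoped NNReal Topology RealInnerProductSpace ENNReal Real

namespace Pool.Agent.Helper19.PQ

open Pool.Agent.Helper19.PS (NP NP_skew NP_trace)

open scoped MatrixOrder in
private theorem pq4_psd {n : Type*} [Fintype n] [DecidableEq n] {S : Matrix n n ℝ}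
    (hS : S.PosSemidef) : ∃ B : Matrix n n ℝ, S = Bᵀ * B := by
  obtain ⟨B, hB⟩ := CStarAlgebra.nonneg_iff_eq_star_mul_self.mp hS.nonneg
  refine ⟨B, ?_⟩
  rw [hB, star_eq_conjTranspose, conjTranspose_eq_transpose_of_trivial]

private theorem pq4_lin {d : ℕ} (Q P₁ P₂ : Matrix (Fin d) (Fin d) ℝ) (a : Fin d → ℝ) (k : Fin d) :
    NP (Q * P₁) (Q * P₂) (Q *ᵥ a) k = ∑ i, Q k i • NP P₁ P₂ a i := by
  ext p q
  rw [Matrix.sum_apply]
  simp only [Matrix.smul_apply, smul_eq_mul]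
  rcases p with p | p <;> rcases q with q | q
  · fin_cases p <;> fin_cases q <;> simp [NP, Matrix.mulVec, dotProduct]
  · fin_cases p <;> simp [NP, Matrix.mul_apply]
  · fin_cases q <;> simp [NP, Matrix.mul_apply]
  · simp [NP]

theorem qd_rigid {d : ℕ} (hd : 2 ≤ d) (A : Matrix (Fin d) (Fin d) ℝ) (a : Fin d → ℝ)
    (ξ : Fin 2 ⊕ Fin d → ℝ) (hξ : ξ ⬝ᵥ ξ = 1) (h : (d : ℝ) ≤ qd A a ξ) :
    ∃ κ : ℝ, A = κ • (1 : Matrix (Fin d) (Fin d) ℝ) := by
  -- the Gram matrix is positive definite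
  have hS : (1 + A * Aᵀ + vecMulVec a a).PosDef := by
    refine Matrix.PosDef.add_posSemidef (Matrix.PosDef.add_posSemidef Matrix.PosDef.one ?_) ?_
    · have := Matrix.posSemidef_self_mul_conjTranspose A
      rwa [conjTranspose_eq_transpose_of_trivial] at this
    · have := Matrix.posSemidef_vecMulVec_self_star a
      rwa [star_trivial] at this
  obtain ⟨B, hB⟩ := pq4_psd hS.posSemidef
  have hSdet : 0 < (1 + A * Aᵀ + vecMulVec a a).det := hS.det_pos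
  have hBdet : B.det ≠ 0 := by
    intro h
    rw [hB, det_mul, h, mul_zero] at hSdet
    exact lt_irrefl _ hSdet
  have hBt : IsUnit (Bᵀ).det := by rw [det_transpose]; exact isUnit_iff_ne_zero.2 hBdet
  have hBu : IsUnit B.det := isUnit_iff_ne_zero.2 hBdet
  obtain ⟨R, hRB, hR⟩ : ∃ R : Matrix (Fin d) (Fin d) ℝ, Bᵀ * R = 1 ∧
      R * (1 + A * Aᵀ + vecMulVec a a) * Rᵀ = 1 := by
    refine ⟨(Bᵀ)⁻¹, mul_nonsing_inv _ hBt, ?_⟩
    rw [hB, transpose_nonsing_inv, transpose_transpose]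
    calc (Bᵀ)⁻¹ * (Bᵀ * B) * B⁻¹ = ((Bᵀ)⁻¹ * Bᵀ) * (B * B⁻¹) := by simp only [Matrix.mul_assoc]
      _ = 1 := by rw [nonsing_inv_mul _ hBt, mul_nonsing_inv _ hBu, Matrix.mul_one]
  set N : Fin d → Matrix (Fin 2 ⊕ Fin d) (Fin 2 ⊕ Fin d) ℝ :=
    fun i => NP (R * A) (R * (-1)) (R *ᵥ a) i with hN
  have hskew : ∀ i, (N i)ᵀ = -N i := fun i => NP_skew _ _ _ i
  have hsum : (R * A) * (R * A)ᵀ + (R * (-1)) * (R * (-1))ᵀ + vecMulVec (R *ᵥ a) (R *ᵥ a)
      = 1 := by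
    refine Eq.trans ?_ hR
    have e1 : vecMulVec (R *ᵥ a) (R *ᵥ a) = R * vecMulVec a a * Rᵀ := by
      rw [Matrix.mul_vecMulVec, Matrix.vecMulVec_mul, vecMul_transpose]
    rw [e1, transpose_mul, transpose_mul, transpose_neg, transpose_one]
    simp only [Matrix.mul_add, Matrix.add_mul, Matrix.mul_assoc, Matrix.mul_neg, Matrix.neg_mul,
      Matrix.mul_one, Matrix.one_mul, neg_neg]
    abel
  have htr : ∀ i, trace ((N i)ᵀ * N i) = 2 := by
    intro i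
    rw [hN]
    simp only
    rw [NP_trace, hsum]
    simp
  have hle : ∀ i, (N i *ᵥ ξ) ⬝ᵥ (N i *ᵥ ξ) ≤ 1 := fun i =>
    (skew_norm (N i) (hskew i) (htr i) ξ hξ).1
  have hqd : ∑ i, (N i *ᵥ ξ) ⬝ᵥ (N i *ᵥ ξ) = qd A a ξ := qd_eq A a R hR ξ
  have heq : ∀ i, (N i *ᵥ ξ) ⬝ᵥ (N i *ᵥ ξ) = 1 := by
    have h0 : ∑ i, (1 - (N i *ᵥ ξ) ⬝ᵥ (N i *ᵥ ξ)) = 0 := by
      refine le_antisymm ?_ (Finset.sum_nonneg fun i _ => sub_nonneg.2 (hle i))
      rw [Finset.sum_sub_distrib, hqd]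
      simp
      linarith
    intro i
    have := (Finset.sum_eq_zero_iff_of_nonneg (fun i _ => sub_nonneg.2 (hle i))).1 h0 i
      (Finset.mem_univ i)
    linarith
  have hform : ∀ i, N i = vecMulVec (N i *ᵥ ξ) ξ - vecMulVec ξ (N i *ᵥ ξ) := fun i =>
    (skew_norm (N i) (hskew i) (htr i) ξ hξ).2 (heq i)
  have hback : ∀ k, NP A (-1) a k = ∑ i, Bᵀ k i • N i := by
    intro k
    rw [hN, ← pq4_lin, ← Matrix.mul_assoc, hRB, ← Matrix.mul_assoc, hRB, mulVec_mulVec, hRB,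
      Matrix.one_mul, Matrix.one_mul, one_mulVec]
  refine pencil_rigid hd A a ξ ?_ (fun k => ∑ i, Bᵀ k i • (N i *ᵥ ξ)) ?_
  · rintro rfl
    simp at hξ
  · intro k
    rw [hback]
    ext p q
    rw [Matrix.sum_apply]
    simp only [Matrix.smul_apply, Matrix.sub_apply, vecMulVec_apply, Finset.sum_apply,
      Pi.smul_apply, smul_eq_mul, Finset.sum_mul, Finset.mul_sum]
    rw [← Finset.sum_sub_distrib]
    refine Finset.sum_congr rfl fun i _ => ?_
    have e := congrFun (congrFun (hform i) p) q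
    simp only [Matrix.sub_apply, vecMulVec_apply] at e
    rw [e]
    ring

end Pool.Agent.Helper19.PQ
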