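import Mathlib

/-!
# Project PQ: umbilic unit fields, definitions
-/

open MeasureTheory Set Metric Filter Module Matrix
open scoped NNReal Topology RealInnerProductSpace ENNReal Real ContDiff Manifold

namespace Pool.Agent.Helper19.PQ

variable {E : Type*} [NormedAddCommGroup E] [InnerProductSpace ℝ E] [FiniteDimensional ℝ E]

/-- degree-0 homogeneous unit tangent fields of class `C²` which are umbilic on `V^⊥`. -/
structure Umb (V : E → E) (κ : E → ℝ) : Prop where
  smooth : ContDiffOn ℝ 2 V {0}ᶜ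
  homog : ∀ x : E, ∀ t : ℝ, 0 < t → V (t • x) = V x
  unit : ∀ x : E, x ≠ 0 → ‖V x‖ = 1
  tang : ∀ x : E, ⟪x, V x⟫ = 0
  umb : ∀ x : E, x ≠ 0 → ∀ Y : E, ⟪x, Y⟫ = 0 → ⟪V x, Y⟫ = 0 → fderiv ℝ V x Y = κ x • Y

/-- the vector `B = D_V V - κ V`. -/
noncomputable def BV (V : E → E) (κ : E → ℝ) (x : E) : E := fderiv ℝ V x (V x) - κ x • V x

/-- the projection of `Y` to the orthogonal complement of `z` and `V z`. -/
noncomputable def WY (V : E → E) (Y z : E) : E := Y - (⟪z, Y⟫ / ‖z‖ ^ 2) • z - ⟪V z, Y⟫ • V z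

end Pool.Agent.Helper19.PQ
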