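import Mathlib
import Pool.Agent.Helper19.PQ.Gap
import Pool.Agent.Helper19.PQ.P4
import Pool.Agent.Helper19.PQ.Umb
import Pool.Agent.Helper19.PS.SharpB

/-!
# Project PQ: the case of equality
(adapted from `PS/SharpB.lean`)
-/

open MeasureTheory Set Metric Filter Module Matrix
open scoped NNReal Topology RealInnerProductSpace ENNReal Real

namespace Pool.Agent.Helper19.PQ

open Pool.Agent.Helper20.VF Pool.Agent.Helper19.PS


variable {n : ℕ}

/-- **The sharp bound with a gap for a general pencil.** -/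
theorem gen_bound_gap (m : ℕ) (hm : 3 ≤ m) (hnm : n + 1 = 2 * m) (A : Matrix (Fin (n + 1)) (Fin (n + 1)) ℝ)
    (a : Fin (n + 1) → ℝ) :
    ∫⁻ p : ℝ × ℝ, ∫⁻ y : EuclideanSpace ℝ (Fin (n + 1)), ENNReal.ofReal (√(p.1 ^ 2 + p.2 ^ 2 + ‖y‖ ^ 2)
        * √((Gm A (-1) a y.ofLp p.1 p.2).det)
        * (gw y * Real.exp (-(p.1 ^ 2 + p.2 ^ 2) / 2)))
      ≤ ENNReal.ofReal (KS n * √((1 + A * Aᵀ + vecMulVec a a).det)
        * (1 - 1 / (128 * (m : ℝ) ^ 2) * min (bet A a) 1)) := by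
  have hn : 3 ≤ n := by omega
  obtain ⟨t, ht⟩ := (𝓝[≠] (0 : ℝ)).exists_seq_tendsto
  obtain ⟨k0, hk0⟩ := eventually_atTop.1 (ht.eventually (ND_pert hn A))
  set τ : ℕ → ℝ := fun k => t (k + k0) with hτ
  have hτ0 : Tendsto τ atTop (𝓝 0) :=
    ((tendsto_nhdsWithin_iff.1 ht).1).comp (tendsto_add_atTop_nat k0)
  have hAk : Tendsto (fun k => A + τ k • EE hn) atTop (𝓝 A) := by
    have : Tendsto (fun k => A + τ k • EE hn) atTop (𝓝 (A + (0 : ℝ) • EE hn)) :=
      tendsto_const_nhds.add (hτ0.smul_const _)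
    rwa [zero_smul, add_zero] at this
  refine fatou2 (f := fun k p y => ENNReal.ofReal (√(p.1 ^ 2 + p.2 ^ 2 + ‖y‖ ^ 2)
        * √((Gm (A + τ k • EE hn) (-1) a y.ofLp p.1 p.2).det)
        * (gw y * Real.exp (-(p.1 ^ 2 + p.2 ^ 2) / 2)))) ?_ ?_
        (r := fun k => ENNReal.ofReal (KS n * √((1 + (A + τ k • EE hn) * (A + τ k • EE hn)ᵀ
          + vecMulVec a a).det) * (1 - 1 / (128 * (m : ℝ) ^ 2) * min (bet (A + τ k • EE hn) a) 1))) ?_ ?_
  · intro k
    have c1 : Continuous (fun q : (ℝ × ℝ) × (EuclideanSpace ℝ (Fin (n + 1))) => Gm (A + τ k • EE hn) (-1) a q.2.ofLp q.1.1 q.1.2) :=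
      continuous_Gm.comp (f := fun q : (ℝ × ℝ) × (EuclideanSpace ℝ (Fin (n + 1))) => (A + τ k • EE hn, a, q.2.ofLp, q.1.1, q.1.2))
        (by fun_prop)
    have c2 : Continuous (fun q : (ℝ × ℝ) × (EuclideanSpace ℝ (Fin (n + 1))) => √(q.1.1 ^ 2 + q.1.2 ^ 2 + ‖q.2‖ ^ 2)
        * √((Gm (A + τ k • EE hn) (-1) a q.2.ofLp q.1.1 q.1.2).det)
        * (gw q.2 * Real.exp (-(q.1.1 ^ 2 + q.1.2 ^ 2) / 2))) := by
      refine (Continuous.mul (by fun_prop) c1.matrix_det.sqrt).mul (Continuous.mul ?_ (by fun_prop))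
      exact continuous_gw.comp continuous_snd
    exact c2.measurable.ennreal_ofReal
  · intro p y
    refine (ENNReal.continuous_ofReal.tendsto _).comp ?_
    refine Tendsto.mul_const _ (Tendsto.const_mul _ ?_)
    have c1 : Continuous (fun M : Matrix (Fin (n + 1)) (Fin (n + 1)) ℝ =>
        √((Gm M (-1) a y.ofLp p.1 p.2).det)) :=
      (continuous_Gm.comp (f := fun M : Matrix (Fin (n + 1)) (Fin (n + 1)) ℝ =>
        (M, a, y.ofLp, p.1, p.2)) (by fun_prop)).matrix_det.sqrt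
    exact (c1.tendsto A).comp hAk
  · refine (ENNReal.continuous_ofReal.tendsto _).comp ?_
    have c1 : Continuous (fun M : Matrix (Fin (n + 1)) (Fin (n + 1)) ℝ =>
        KS n * √((1 + M * Mᵀ + vecMulVec a a).det)
          * (1 - 1 / (128 * (m : ℝ) ^ 2) * min (bet M a) 1)) := by
      refine Continuous.mul (Continuous.mul continuous_const
        (Continuous.sqrt (Continuous.matrix_det ?_))) ?_
      · exact (continuous_const.add (continuous_id.matrix_mul continuous_id.matrix_transpose)).add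
          continuous_const
      · exact continuous_const.sub (continuous_const.mul ((continuous_bet a).min continuous_const))
    exact (c1.tendsto A).comp hAk
  · intro k
    exact gen_bound_ND_gap m hm hnm hn _ (hk0 _ (by omega)) a



variable {E : Type*} [NormedAddCommGroup E] [InnerProductSpace ℝ E] [FiniteDimensional ℝ E]
variable [MeasurableSpace E] [BorelSpace E]

/-- **Equality in the pointwise bound.** -/
theorem eq_unit (m : ℕ) (hm : 3 ≤ m) (hnm : n + 1 = 2 * m) (hfr : finrank ℝ E = n + 3) {V : E → E} (hV : UField V) {x : E}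
    (hx : ‖x‖ = 1)
    (heq : ENNReal.ofReal (2 ^ (n + 1) * KS n * volDens (tanPart x (fderiv ℝ V x)))
      ≤ ∫⁻ X : E, ENNReal.ofReal (fw V x X)) :
    ∃ κ : ℝ, ∀ Y : E, ⟪x, Y⟫ = 0 → ⟪V x, Y⟫ = 0 → fderiv ℝ V x Y = κ • Y := by
  have hx0 : x ≠ 0 := by rintro rfl; simp at hx
  have hvn : ‖V x‖ = 1 := hV.unit x hx0
  have hxv : ⟪x, V x⟫ = 0 := hV.tang x
  -- the basis
  obtain ⟨b, hb⟩ : ∃ b : OrthonormalBasis (Fin 2 ⊕ Fin (n + 1)) ℝ E,
      b (Sum.inl 0) = x ∧ b (Sum.inl 1) = V x := by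
    set w : Fin 2 ⊕ Fin (n + 1) → E := Sum.elim ![x, V x] 0 with hw
    set s : Set (Fin 2 ⊕ Fin (n + 1)) := range Sum.inl with hs
    have hon : Orthonormal ℝ (s.domRestrict w) := by
      constructor
      · rintro ⟨i, k, rfl⟩
        fin_cases k
        · simpa [hw, Set.domRestrict] using hx
        · simpa [hw, Set.domRestrict] using hvn
      · rintro ⟨i, k, rfl⟩ ⟨j, l, rfl⟩ hkl
        fin_cases k <;> fin_cases l
        · exact absurd rfl hkl
        · simpa [hw, Set.domRestrict] using hxv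
        · simpa [hw, Set.domRestrict, real_inner_comm] using hxv
        · exact absurd rfl hkl
    obtain ⟨b, hb⟩ := hon.exists_orthonormalBasis_extension_of_card_eq (by
      rw [hfr]; simp; ring)
    exact ⟨b, by rw [hb _ ⟨0, rfl⟩]; rfl, by rw [hb _ ⟨1, rfl⟩]; rfl⟩
  obtain ⟨hb0, hb1⟩ := hb
  set T := fderiv ℝ V x with hT
  have hVd : HasFDerivAt V T x :=
    ((hV.smooth.differentiableOn one_ne_zero x hx0).differentiableAt
      (isOpen_U.mem_nhds hx0)).hasFDerivAt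
  have hTx : T (b (Sum.inl 0)) = 0 := by
    rw [hb0]
    exact fderiv_apply_self_of_homog (fun X t ht => hV.homog X t ht) hVd.differentiableAt
  have hTv : ∀ δ, ⟪b (Sum.inl 1), T δ⟫ = 0 := by
    intro δ
    rw [hb1]
    have h1 : HasDerivAt (fun t : ℝ => ⟪V (x + t • δ), V (x + t • δ)⟫) (⟪V x, T δ⟫ + ⟪T δ, V x⟫) 0 := by
      have hc : HasDerivAt (fun t : ℝ => x + t • δ) δ 0 := by
        simpa using ((hasDerivAt_id (0 : ℝ)).smul_const δ).const_add x
      have hu : HasDerivAt (fun t : ℝ => V (x + t • δ)) (T δ) 0 := by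
        have : HasFDerivAt V T (x + (0 : ℝ) • δ) := by rw [zero_smul, add_zero]; exact hVd
        exact this.comp_hasDerivAt (0 : ℝ) hc
      simpa using hu.inner ℝ hu
    have h2 : HasDerivAt (fun t : ℝ => ⟪V (x + t • δ), V (x + t • δ)⟫) 0 0 := by
      refine (hasDerivAt_const (0 : ℝ) (1 : ℝ)).congr_of_eventuallyEq ?_
      have hc : Continuous (fun t : ℝ => x + t • δ) := by fun_prop
      have h3 := (hc.tendsto 0).eventually (isOpen_U.mem_nhds (by simpa using hx0 : x + (0 : ℝ) • δ ∈ ({0}ᶜ : Set E)))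
      filter_upwards [h3] with t ht
      rw [real_inner_self_eq_norm_sq, hV.unit _ ht]; norm_num
    have h3 := h1.unique h2
    rw [real_inner_comm (V x) (T δ)] at h3
    linarith
  have hTt : ∀ δ, ⟪b (Sum.inl 0), T δ⟫ = -⟪δ, b (Sum.inl 1)⟫ := by
    intro δ
    rw [hb0, hb1]
    have hc : HasDerivAt (fun t : ℝ => x + t • δ) δ 0 := by
      simpa using ((hasDerivAt_id (0 : ℝ)).smul_const δ).const_add x
    have h1 : HasDerivAt (fun t : ℝ => ⟪x + t • δ, V (x + t • δ)⟫) (⟪x, T δ⟫ + ⟪δ, V x⟫) 0 := by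
      have hu : HasDerivAt (fun t : ℝ => V (x + t • δ)) (T δ) 0 := by
        have : HasFDerivAt V T (x + (0 : ℝ) • δ) := by rw [zero_smul, add_zero]; exact hVd
        exact this.comp_hasDerivAt (0 : ℝ) hc
      simpa using hc.inner ℝ hu
    have h2 : HasDerivAt (fun t : ℝ => ⟪x + t • δ, V (x + t • δ)⟫) 0 0 := by
      refine (hasDerivAt_const (0 : ℝ) (0 : ℝ)).congr_of_eventuallyEq (Eventually.of_forall fun t => ?_)
      exact hV.tang _
    linarith [h1.unique h2]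
  -- change variables
  have hmeas : Measurable (fun X : E => ENNReal.ofReal (fw V x X)) :=
    ((measurable_fw hV).comp measurable_prodMk_left).ennreal_ofReal
  rw [← (measurePreserving_coordMap b).lintegral_comp hmeas] at heq
  have hm2 : Measurable (fun q : (ℝ × ℝ) × (EuclideanSpace ℝ (Fin (n + 1))) => ENNReal.ofReal (fw V x (coordMap b q))) :=
    hmeas.comp (measurePreserving_coordMap b).measurable
  rw [lintegral_prod _ hm2.aemeasurable] at heq
  have hfw : ∀ (p : ℝ × ℝ) (y : EuclideanSpace ℝ (Fin (n + 1))), ENNReal.ofReal (fw V x (coordMap b (p, y)))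
      = ENNReal.ofReal (2 ^ (n + 1)) * ENNReal.ofReal (√(p.1 ^ 2 + p.2 ^ 2 + ‖y‖ ^ 2)
        * √((Gm (Am b T) (-1) (av b T) y.ofLp p.1 p.2).det)
        * (gw y * Real.exp (-(p.1 ^ 2 + p.2 ^ 2) / 2))) := by
    intro p y
    rw [← ENNReal.ofReal_mul (by positivity)]
    congr 1
    have hD : Dp V x (coordMap b (p, y))
        = 2 ^ (n + 1) * √((Gm (Am b T) (-1) (av b T) y.ofLp p.1 p.2).det) := by
      have := Dd_coord b T hTx hTv hTt (p, y)
      rw [hb0, hb1] at this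
      rw [Dp, hx, inv_one, one_smul]
      exact this
    have hN := norm_coordMap b (p, y)
    have hN2 : ‖coordMap b (p, y)‖ = √(p.1 ^ 2 + p.2 ^ 2 + ‖y‖ ^ 2) := by
      rw [← hN, Real.sqrt_sq (norm_nonneg _)]
    have hE : Real.exp (-‖coordMap b (p, y)‖ ^ 2 / 2)
        = gw y * Real.exp (-(p.1 ^ 2 + p.2 ^ 2) / 2) := by
      rw [hN, gw, ← Real.exp_add]
      congr 1
      ring
    rw [fw, hD, hE, hN2]
    ring
  simp_rw [hfw, lintegral_const_mul' _ _ ENNReal.ofReal_ne_top] at heq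
  have hg := gen_bound_gap m hm hnm (Am b T) (av b T)
  have h1 := heq.trans (mul_le_mul_right hg _)
  rw [← ENNReal.ofReal_mul (by positivity)] at h1
  have hvd : volDens (tanPart x T) = √((1 + Am b T * (Am b T)ᵀ + vecMulVec (av b T) (av b T)).det) := by
    have := volDens_coord b T hTx hTv
    rw [hb0] at this
    exact this
  rw [hvd] at h1
  have hpos : 0 < (1 + Am b T * (Am b T)ᵀ + vecMulVec (av b T) (av b T)).det := by
    refine Matrix.PosDef.det_pos ?_
    refine Matrix.PosDef.add_posSemidef (Matrix.PosDef.add_posSemidef Matrix.PosDef.one ?_) ?_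
    · have := Matrix.posSemidef_self_mul_conjTranspose (Am b T)
      rwa [conjTranspose_eq_transpose_of_trivial] at this
    · have := Matrix.posSemidef_vecMulVec_self_star (av b T)
      rwa [star_trivial] at this
  have hsq := Real.sqrt_pos.2 hpos
  set D := √((1 + Am b T * (Am b T)ᵀ + vecMulVec (av b T) (av b T)).det) with hD
  have hK := KS_pos n
  have hgam : 0 < 1 / (128 * (m : ℝ) ^ 2) := by
    have : (0 : ℝ) < m := by exact_mod_cast (by omega : 0 < m)
    positivity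
  have hbet : bet (Am b T) (av b T) ≤ 0 := by
    by_contra hcon
    push Not at hcon
    have hmin : 0 < min (bet (Am b T) (av b T)) 1 := lt_min hcon one_pos
    have h2 : 2 ^ (n + 1) * (KS n * D * (1 - 1 / (128 * (m : ℝ) ^ 2) * min (bet (Am b T) (av b T)) 1))
        < 2 ^ (n + 1) * KS n * D := by
      have h3 : 0 < 1 / (128 * (m : ℝ) ^ 2) * min (bet (Am b T) (av b T)) 1 := mul_pos hgam hmin
      have h4 : 0 < 2 ^ (n + 1) * KS n * D := by positivity
      nlinarith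
    have h5 := (ENNReal.ofReal_lt_ofReal_iff (by positivity : 0 < 2 ^ (n + 1) * KS n * D)).2 h2
    exact absurd h1 (not_le.2 h5)
  obtain ⟨ξ, hξ, hξ2⟩ := exists_bet (Am b T) (av b T)
  obtain ⟨κ, hκ⟩ := qd_rigid (by omega) (Am b T) (av b T) ξ hξ (by linarith)
  refine ⟨κ, fun Y hY hYV => ?_⟩
  have hTb : ∀ j, T (b (Sum.inr j)) = κ • b (Sum.inr j) := by
    intro j
    have h1 := b.sum_repr' (T (b (Sum.inr j)))
    rw [Fintype.sum_sum_type, Fin.sum_univ_two, hTt, hTv, b.inner_eq_ite] at h1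
    have h2 : ∀ i, ⟪b (Sum.inr i), T (b (Sum.inr j))⟫ = κ * (1 : Matrix (Fin (n + 1)) (Fin (n + 1)) ℝ) i j := by
      intro i
      have h3 := congrFun (congrFun hκ i) j
      rw [Am, Matrix.of_apply, Matrix.smul_apply, smul_eq_mul] at h3
      exact h3
    simp only [h2] at h1
    rw [← h1]
    simp [Matrix.one_apply]
  have h1 := b.sum_repr' Y
  rw [Fintype.sum_sum_type, Fin.sum_univ_two, hb0, hb1, hY, hYV, zero_smul, zero_smul, zero_add,
    zero_add] at h1
  have h2 := congrArg T h1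
  rw [map_sum] at h2
  rw [← h2]
  conv_rhs => rw [← h1]
  rw [Finset.smul_sum]
  refine Finset.sum_congr rfl fun j _ => ?_
  rw [map_smul, hTb, smul_comm]


variable {V : E → E}

theorem eq_ae (m : ℕ) (hm : 3 ≤ m) (hnm : n + 1 = 2 * m) (hfr : finrank ℝ E = n + 3) (hV : UField V)
    (hle : 2 ^ (n + 1) * KS n * ∫ u : sphere (0 : E) 1, Jd V u ∂(volume : Measure E).toSphere
      ≤ 2 * kap n * (volume : Measure E).toSphere.real univ) :
    ∀ᵐ x : E, ∃ κ : ℝ, ∀ Y : E, ⟪x, Y⟫ = 0 → ⟪V x, Y⟫ = 0 → fderiv ℝ V x Y = κ • Y := by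
  have hodd : Odd n := ⟨m - 1, by omega⟩
  have hnt : Nontrivial E := Module.nontrivial_of_finrank_pos (R := ℝ) (by omega)
  set S := (volume : Measure E).toSphere with hS
  have hK0 : 0 ≤ 2 ^ (n + 1) * KS n := by
    have h1 := KS_pos n
    positivity
  have hk0 : 0 ≤ 2 * kap n := by
    have := gm_pos (2 * n + 4)
    have := gm_pos (2 * n + 1)
    have := gm_pos n
    unfold kap
    positivity
  -- the function `g`
  set g : E → ℝ := fun x => Jd V (‖x‖⁻¹ • x) * Real.exp (-‖x‖ ^ 2 / 2) with hg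
  have hnorm : ∀ x : E, x ≠ 0 → ‖‖x‖⁻¹ • x‖ = 1 := fun x hx => by
    rw [norm_smul, norm_inv, norm_norm, inv_mul_cancel₀ (norm_ne_zero_iff.2 hx)]
  have hne : ∀ x : E, x ≠ 0 → ‖x‖⁻¹ • x ≠ 0 := fun x hx h => by
    have := hnorm x hx
    rw [h, norm_zero] at this
    exact zero_ne_one this
  have hJc : ContinuousOn (fun x : E => Jd V (‖x‖⁻¹ • x)) {0}ᶜ := by
    refine (continuousOn_Jd hV).comp (ContinuousOn.smul (ContinuousOn.inv₀ (by fun_prop)
      (fun x hx => norm_ne_zero_iff.2 hx)) continuousOn_id) (fun x hx => hne x hx)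
  have hJm : Measurable (fun x : E => Jd V (‖x‖⁻¹ • x)) :=
    measurable_of_continuousOn_compl_singleton 0 hJc
  obtain ⟨C, hC⟩ := (isCompact_sphere (0 : E) 1).exists_bound_of_continuousOn
    (continuousOn_Jd_sphere hV)
  have hgint : Integrable g := by
    have h0 : Integrable (fun y : E => (1 : ℝ) * gw y) := by
      have h3 : Hom 0 (fun _ : E => (1 : ℝ)) := ⟨continuous_const, fun r y => by simp⟩
      exact h3.integrable
    refine (h0.const_mul (max C ‖Jd V 0‖)).mono' (hJm.aestronglyMeasurable.mul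
      ((by fun_prop : Continuous fun x : E => Real.exp (-‖x‖ ^ 2 / 2)).aestronglyMeasurable))
      (Eventually.of_forall fun x => ?_)
    rw [norm_mul, one_mul, gw, Real.norm_eq_abs (Real.exp _), abs_of_pos (Real.exp_pos _)]
    refine mul_le_mul_of_nonneg_right ?_ (Real.exp_pos _).le
    by_cases hx : x = 0
    · subst hx
      simp
    · exact (hC _ (by rw [mem_sphere_zero_iff_norm]; exact hnorm x hx)).trans (le_max_left _ _)
  have hg0 : ∀ x, 0 ≤ g x := fun x => mul_nonneg (Jd_nonneg _) (Real.exp_pos _).le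
  have hgI : ∫ x, g x = (∫ u : sphere (0 : E) 1, Jd V u ∂S) * gm (finrank ℝ E - 1) := by
    rw [integral_polar_mul g (Jd V) (fun r => Real.exp (-r ^ 2 / 2))]
    · rfl
    · intro u hu r hr
      simp only [hg]
      rw [norm_smul, hu, mul_one, Real.norm_eq_abs, abs_of_pos hr, smul_smul, inv_mul_cancel₀ hr.ne',
        one_smul]
  have heI : ∫ x : E, Real.exp (-‖x‖ ^ 2 / 2) = S.real univ * gm (finrank ℝ E - 1) := by
    rw [integral_polar_mul _ (fun _ => (1 : ℝ)) (fun r => Real.exp (-r ^ 2 / 2))]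
    · rw [integral_const, smul_eq_mul, mul_one]; rfl
    · intro u hu r hr
      rw [norm_smul, hu, mul_one, Real.norm_eq_abs, sq_abs, one_mul]
  have heint : Integrable (fun x : E => Real.exp (-‖x‖ ^ 2 / 2)) := by
    have h3 : Hom 0 (fun _ : E => (1 : ℝ)) := ⟨continuous_const, fun r y => by simp⟩
    have := h3.integrable
    simpa [gw] using this
  have h2 := partII hV hfr hodd
  have hpt : ∀ᵐ x : E, ENNReal.ofReal (Real.exp (-‖x‖ ^ 2 / 2)) * ∫⁻ X : E, ENNReal.ofReal (fw V x X)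
      ≤ ENNReal.ofReal (2 ^ (n + 1) * KS n) * ENNReal.ofReal (g x) := by
    have : ∀ᵐ x : E, x ≠ 0 := by
      rw [ae_iff]
      simp
    filter_upwards [this] with x hx
    have h4 : ∫⁻ X : E, ENNReal.ofReal (fw V x X)
        ≤ ENNReal.ofReal (2 ^ (n + 1) * KS n * Jd V (‖x‖⁻¹ • x)) := by
      refine le_trans (le_of_eq ?_) (upper_unit_sharp m hm hnm hfr hV (hnorm x hx))
      refine lintegral_congr (fun X => ?_)
      rw [fw_smul_left hV x X (inv_pos.2 (norm_pos_iff.2 hx))]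
    refine (mul_le_mul_right h4 _).trans (le_of_eq ?_)
    rw [← ENNReal.ofReal_mul (Real.exp_pos _).le, ← ENNReal.ofReal_mul hK0]
    congr 1
    simp only [hg]
    ring
  have hrhs : ∫⁻ x : E, ENNReal.ofReal (2 ^ (n + 1) * KS n) * ENNReal.ofReal (g x)
      = ENNReal.ofReal (2 ^ (n + 1) * KS n * ∫ x, g x) := by
    rw [lintegral_const_mul' _ _ ENNReal.ofReal_ne_top, ENNReal.ofReal_mul hK0,
      ofReal_integral_eq_lintegral_ofReal hgint (Eventually.of_forall hg0)]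
  have h5 : ENNReal.ofReal (2 * kap n) * (∫⁻ x : E, ENNReal.ofReal (Real.exp (-‖x‖ ^ 2 / 2)))
      = ENNReal.ofReal (2 * kap n * ∫ x : E, Real.exp (-‖x‖ ^ 2 / 2)) := by
    rw [ENNReal.ofReal_mul hk0, ofReal_integral_eq_lintegral_ofReal heint
      (Eventually.of_forall fun x => (Real.exp_pos _).le)]
  rw [h5] at h2
  have hgm := gm_pos (finrank ℝ E - 1)
  have h6 : ∫⁻ x : E, ENNReal.ofReal (2 ^ (n + 1) * KS n) * ENNReal.ofReal (g x)
      ≤ ∫⁻ x : E, ENNReal.ofReal (Real.exp (-‖x‖ ^ 2 / 2)) * ∫⁻ X : E, ENNReal.ofReal (fw V x X) := by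
    rw [hrhs]
    refine le_trans (ENNReal.ofReal_le_ofReal ?_) h2
    rw [hgI, heI]
    calc 2 ^ (n + 1) * KS n * ((∫ u : sphere (0 : E) 1, Jd V u ∂S) * gm (finrank ℝ E - 1))
        = (2 ^ (n + 1) * KS n * ∫ u : sphere (0 : E) 1, Jd V u ∂S) * gm (finrank ℝ E - 1) := by ring
      _ ≤ (2 * kap n * S.real univ) * gm (finrank ℝ E - 1) :=
          mul_le_mul_of_nonneg_right hle hgm.le
      _ = _ := by ring
  have h7 := ae_eq_of_ae_le_of_lintegral_le hpt
    (ne_of_lt ((lintegral_mono_ae hpt).trans_lt (by rw [hrhs]; exact ENNReal.ofReal_lt_top)))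
    (by
      have hgm : Measurable g := hJm.mul
        ((by fun_prop : Continuous fun x : E => Real.exp (-‖x‖ ^ 2 / 2)).measurable)
      exact (hgm.ennreal_ofReal.const_mul _).aemeasurable) h6
  have : ∀ᵐ x : E, x ≠ 0 := by
    rw [ae_iff]
    simp
  filter_upwards [this, h7] with x hx hx7
  have hr : 0 < ‖x‖⁻¹ := inv_pos.2 (norm_pos_iff.2 hx)
  have hexp : 0 < Real.exp (-‖x‖ ^ 2 / 2) := Real.exp_pos _
  have h8 : ENNReal.ofReal (2 ^ (n + 1) * KS n * volDens (tanPart (‖x‖⁻¹ • x) (fderiv ℝ V (‖x‖⁻¹ • x))))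
      ≤ ∫⁻ X : E, ENNReal.ofReal (fw V (‖x‖⁻¹ • x) X) := by
    have e1 : ENNReal.ofReal (2 ^ (n + 1) * KS n) * ENNReal.ofReal (g x)
        = ENNReal.ofReal (Real.exp (-‖x‖ ^ 2 / 2))
          * ENNReal.ofReal (2 ^ (n + 1) * KS n * Jd V (‖x‖⁻¹ • x)) := by
      rw [← ENNReal.ofReal_mul hexp.le, ← ENNReal.ofReal_mul hK0]
      congr 1
      simp only [hg]
      ring
    rw [e1] at hx7
    have h9 := (ENNReal.mul_right_inj (by
      rw [Ne, ENNReal.ofReal_eq_zero, not_le]; exact hexp) ENNReal.ofReal_ne_top).1 hx7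
    refine le_of_eq ?_
    rw [show volDens (tanPart (‖x‖⁻¹ • x) (fderiv ℝ V (‖x‖⁻¹ • x))) = Jd V (‖x‖⁻¹ • x) from rfl,
      ← h9]
    refine lintegral_congr (fun X => ?_)
    rw [fw_smul_left hV x X hr]
  obtain ⟨κ, hκ⟩ := eq_unit m hm hnm hfr hV (hnorm x hx) h8
  refine ⟨‖x‖⁻¹ * κ, fun Y hY hYV => ?_⟩
  have h10 := hκ Y (by rw [inner_smul_left, hY, mul_zero]) (by rw [hV.homog x _ hr, hYV])
  have h11 : fderiv ℝ V (‖x‖⁻¹ • x) = (‖x‖⁻¹)⁻¹ • fderiv ℝ V x :=
    fderiv_smul_of_homog hr.ne' (fun X => hV.homog X _ hr) x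
  rw [h11, inv_inv, _root_.smul_apply] at h10
  rw [mul_smul, ← h10, smul_smul, inv_mul_cancel₀ (norm_ne_zero_iff.2 hx), one_smul]

/-- **Equality everywhere.** -/
theorem eq_all (m : ℕ) (hm : 3 ≤ m) (hfr : finrank ℝ E = 2 * m + 2) (hV : UField V)
    (hle : ∫ u : sphere (0 : E) 1, Jd V u ∂(volume : Measure E).toSphere
      ≤ cst m * (volume : Measure E).toSphere.real univ) :
    ∀ x : E, x ≠ 0 → ∃ κ : ℝ, ∀ Y : E, ⟪x, Y⟫ = 0 → ⟪V x, Y⟫ = 0 → fderiv ℝ V x Y = κ • Y := by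
  have hK0 : 0 < 2 ^ (2 * m - 1 + 1) * KS (2 * m - 1) := by
    have := KS_pos (2 * m - 1)
    positivity
  have hae := eq_ae (n := 2 * m - 1) m hm (by omega) (by omega) hV (by
    rw [kap_eq_KS m (by omega)]
    calc _ ≤ 2 ^ (2 * m - 1 + 1) * KS (2 * m - 1) * (cst m * (volume : Measure E).toSphere.real univ) :=
          mul_le_mul_of_nonneg_left hle hK0.le
      _ = _ := by ring)
  set D : Set E := {x | ∃ κ : ℝ, ∀ Y : E, ⟪x, Y⟫ = 0 → ⟪V x, Y⟫ = 0 → fderiv ℝ V x Y = κ • Y} with hD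
  have hdense : Dense D := Measure.dense_of_ae hae
  clear hae hK0 hle
  intro x hx
  choose! κf hκf using fun (z : E) (hz : z ∈ D) => hz
  have hne : (𝓝[D] x).NeBot := mem_closure_iff_nhdsWithin_neBot.1 (hdense x)
  have hx0 : ∀ᶠ z in 𝓝[D] x, z ≠ 0 := eventually_nhdsWithin_of_eventually_nhds (isOpen_ne.eventually_mem hx)
  have hVc : ContinuousAt V x := (hV.smooth.continuousOn.continuousAt (isOpen_U.mem_nhds hx))
  have hfc : ContinuousAt (fderiv ℝ V) x := (continuousOn_fderiv_V hV).continuousAt (isOpen_U.mem_nhds hx)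
  -- projections
  have hW : ∀ Z : E, ⟪x, Z⟫ = 0 → ⟪V x, Z⟫ = 0 → Tendsto (WY V Z) (𝓝[D] x) (𝓝 Z) := by
    intro Z h1 h2
    have h3 : ContinuousAt (WY V Z) x := by
      unfold WY
      have h4 : ‖x‖ ^ 2 ≠ 0 := pow_ne_zero 2 (norm_ne_zero_iff.2 hx)
      have h5 : ContinuousAt (fun z : E => ⟪z, Z⟫ / ‖z‖ ^ 2) x :=
        ContinuousAt.div (by fun_prop) (by fun_prop) h4
      have h6 : ContinuousAt (fun z : E => ⟪V z, Z⟫) x := by fun_prop
      exact (continuousAt_const.sub (h5.smul continuousAt_id)).sub (h6.smul hVc)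
    have h5 : WY V Z x = Z := by simp [WY, h1, h2]
    have h6 := h3.tendsto
    rw [h5] at h6
    exact h6.mono_left nhdsWithin_le_nhds
  have hWe : ∀ Z : E, ∀ᶠ z in 𝓝[D] x, fderiv ℝ V z (WY V Z z) = κf z • WY V Z z := by
    intro Z
    filter_upwards [hx0, self_mem_nhdsWithin] with z hz0 hzD
    have h1 : ‖z‖ ^ 2 ≠ 0 := pow_ne_zero 2 (norm_ne_zero_iff.2 hz0)
    refine hκf z hzD _ ?_ ?_
    · unfold WY
      rw [inner_sub_right, inner_sub_right, inner_smul_right, inner_smul_right, hV.tang z,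
        real_inner_self_eq_norm_sq, div_mul_cancel₀ _ h1, mul_zero, sub_zero, sub_self]
    · unfold WY
      rw [inner_sub_right, inner_sub_right, inner_smul_right, inner_smul_right,
        real_inner_comm z (V z), hV.tang z, real_inner_self_eq_norm_sq, hV.unit z hz0]
      ring
  have hT : ∀ Z : E, ⟪x, Z⟫ = 0 → ⟪V x, Z⟫ = 0 →
      Tendsto (fun z => fderiv ℝ V z (WY V Z z)) (𝓝[D] x) (𝓝 (fderiv ℝ V x Z)) := by
    intro Z h1 h2
    have h3 : Continuous (fun p : (E →L[ℝ] E) × E => p.1 p.2) := isBoundedBilinearMap_apply.continuous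
    exact (h3.tendsto (fderiv ℝ V x, Z)).comp
      ((hfc.tendsto.mono_left nhdsWithin_le_nhds).prodMk_nhds (hW Z h1 h2))
  by_cases hex : ∃ Y₀ : E, Y₀ ≠ 0 ∧ ⟪x, Y₀⟫ = 0 ∧ ⟪V x, Y₀⟫ = 0
  · obtain ⟨Y₀, hY0, hY1, hY2⟩ := hex
    have hκ : Tendsto κf (𝓝[D] x) (𝓝 (⟪fderiv ℝ V x Y₀, Y₀⟫ / ‖Y₀‖ ^ 2)) := by
      have h1 : Tendsto (fun z => ⟪fderiv ℝ V z (WY V Y₀ z), WY V Y₀ z⟫ / ‖WY V Y₀ z‖ ^ 2) (𝓝[D] x)
          (𝓝 (⟪fderiv ℝ V x Y₀, Y₀⟫ / ‖Y₀‖ ^ 2)) :=
        ((hT Y₀ hY1 hY2).inner (hW Y₀ hY1 hY2)).div ((hW Y₀ hY1 hY2).norm.pow 2)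
          (pow_ne_zero 2 (norm_ne_zero_iff.2 hY0))
      refine h1.congr' ?_
      filter_upwards [hWe Y₀, (hW Y₀ hY1 hY2).eventually_ne hY0] with z h2 h3
      rw [h2, inner_smul_left, real_inner_self_eq_norm_sq]
      simp only [RCLike.conj_to_real]
      rw [mul_div_assoc, div_self (pow_ne_zero 2 (norm_ne_zero_iff.2 h3)), mul_one]
    refine ⟨⟪fderiv ℝ V x Y₀, Y₀⟫ / ‖Y₀‖ ^ 2, fun Z h1 h2 => ?_⟩
    refine tendsto_nhds_unique (hT Z h1 h2) ?_
    refine (hκ.smul (hW Z h1 h2)).congr' ?_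
    filter_upwards [hWe Z] with z h3
    rw [h3]
  · push Not at hex
    refine ⟨0, fun Y h1 h2 => ?_⟩
    have : Y = 0 := by
      by_contra h
      exact hex Y h h1 h2
    rw [this, map_zero, smul_zero]


end Pool.Agent.Helper19.PQ
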