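import Mathlib
import Pool.Agent.Helper19.PQ.P7
import Pool.Agent.Helper19.PQ.P8

/-!
# Project PQ, piece PQ-9: there is no umbilic unit field (compactness argument)
-/

open MeasureTheory Set Metric Filter Module Matrix
open scoped NNReal Topology RealInnerProductSpace ENNReal Real ContDiff Manifold

namespace Pool.Agent.Helper19.PQ


section geometry

variable {E : Type*} [NormedAddCommGroup E] [InnerProductSpace ℝ E] [FiniteDimensional ℝ E]

/-- the values of `κ` off the sphere. -/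
private theorem P9_kap_norm {V : E → E} {κ : E → ℝ} (h : Umb V κ) (hfr : 3 ≤ finrank ℝ E) {z : E}
    (hz : z ≠ 0) : κ z * ‖z‖ = κ (‖z‖⁻¹ • z) := by
  have hz' : 0 < ‖z‖ := norm_pos_iff.2 hz
  rw [h.homog_kap hfr hz (inv_pos.2 hz'), inv_inv, mul_comm]

private theorem P9_kap_crit {V : E → E} {κ : E → ℝ} (h : Umb V κ) (hfr : 3 ≤ finrank ℝ E) {κ₀ : ℝ}
    (hmin : ∀ z : E, ‖z‖ = 1 → κ₀ ≤ κ z) {x : E} (hx : ‖x‖ = 1) (hκ : κ x = κ₀) :
    fderiv ℝ κ x (V x) = 0 := by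
  have hx0 : x ≠ 0 := by
    intro h0; rw [h0, norm_zero] at hx; exact zero_ne_one hx
  have hV : ‖V x‖ = 1 := h.unit x hx0
  have hort : ⟪x, V x⟫ = 0 := h.tang x
  have hsq : ∀ t : ℝ, ‖x + t • V x‖ ^ 2 = 1 + t ^ 2 := by
    intro t
    rw [norm_add_sq_real, inner_smul_right, hort, norm_smul, hx, hV]
    simp
  have hpos : ∀ t : ℝ, 0 < ‖x + t • V x‖ := by
    intro t
    have h1 := hsq t
    by_contra hc
    have h2 : ‖x + t • V x‖ = 0 := le_antisymm (not_lt.1 hc) (norm_nonneg _)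
    rw [h2] at h1
    nlinarith [sq_nonneg t]
  have hne : ∀ t : ℝ, x + t • V x ≠ 0 := fun t => norm_pos_iff.1 (hpos t)
  -- the function `φ t = κ (x + t V) * √(1 + t²)`
  have hsqrt : ∀ t : ℝ, ‖x + t • V x‖ = √(1 + t ^ 2) := by
    intro t
    rw [← hsq t, Real.sqrt_sq (norm_nonneg _)]
  have hφ : ∀ t : ℝ, κ₀ ≤ κ (x + t • V x) * √(1 + t ^ 2) := by
    intro t
    rw [← hsqrt t, P9_kap_norm h hfr (hne t)]
    apply hmin
    rw [norm_smul, norm_inv, norm_norm]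
    exact inv_mul_cancel₀ (hpos t).ne'
  have hdk : HasFDerivAt κ (fderiv ℝ κ x) x := by
    have h1 : ContDiffAt ℝ 1 κ x :=
      (h.contDiffOn_kap hfr).contDiffAt (isOpen_compl_singleton.mem_nhds hx0)
    exact (h1.differentiableAt (by norm_num)).hasFDerivAt
  have hline : HasDerivAt (fun t : ℝ => x + t • V x) (V x) 0 := by
    have h1 : HasDerivAt (fun t : ℝ => t • V x) ((1 : ℝ) • V x) 0 :=
      (hasDerivAt_id (0 : ℝ)).smul_const (V x)
    rw [one_smul] at h1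
    exact h1.const_add x
  have hd1 : HasDerivAt (fun t : ℝ => κ (x + t • V x)) (fderiv ℝ κ x (V x)) 0 := by
    have h1 : HasFDerivAt κ (fderiv ℝ κ x) ((fun t : ℝ => x + t • V x) 0) := by
      simpa using hdk
    exact h1.comp_hasDerivAt 0 hline
  have hd2 : HasDerivAt (fun t : ℝ => √(1 + t ^ 2)) 0 0 := by
    have h1 : HasDerivAt (fun t : ℝ => 1 + t ^ 2) (2 * (0 : ℝ)) 0 := by
      have := (hasDerivAt_pow 2 (0 : ℝ)).const_add 1
      simpa using this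
    have h2 := h1.sqrt (by norm_num)
    simpa using h2
  have hd : HasDerivAt (fun t : ℝ => κ (x + t • V x) * √(1 + t ^ 2)) (fderiv ℝ κ x (V x)) 0 := by
    have h1 := (hd1.mul hd2).congr_deriv (g' := fderiv ℝ κ x (V x)) (by simp)
    exact h1
  have hloc : IsLocalMin (fun t : ℝ => κ (x + t • V x) * √(1 + t ^ 2)) 0 := by
    refine Filter.Eventually.of_forall fun t => ?_
    simp only [zero_smul, add_zero, ne_eq, OfNat.ofNat_ne_zero, not_false_eq_true, zero_pow,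
      Real.sqrt_one, mul_one]
    rw [hκ]
    exact hφ t
  exact hloc.hasDerivAt_eq_zero hd

/-- curves starting in the minimum set stay in it. -/
private theorem P9_curve_mem {V : E → E} {κ : E → ℝ} (h : Umb V κ) (hfr : 4 ≤ finrank ℝ E)
    {γ : ℝ → E} {ε : ℝ} (hε : 0 < ε) {Y : E}
    (hγ : ∀ t ∈ Ioo (-ε) ε, ‖γ t‖ = 1 ∧
      HasDerivAt γ (WY V Y (γ t)) t ∧ ⟪γ t, WY V Y (γ t)⟫ = 0 ∧ ⟪V (γ t), WY V Y (γ t)⟫ = 0) :
    ∀ t ∈ Ioo (-ε) ε, κ (γ t) = κ (γ 0) := by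
  have hne : ∀ t ∈ Ioo (-ε) ε, γ t ≠ 0 := by
    intro t ht h0
    have := (hγ t ht).1
    rw [h0, norm_zero] at this
    exact zero_ne_one this
  have hder : ∀ t ∈ Ioo (-ε) ε, HasDerivAt (fun s => κ (γ s)) 0 t := by
    intro t ht
    have h1 : ContDiffAt ℝ 1 κ (γ t) :=
      (h.contDiffOn_kap (by omega)).contDiffAt (isOpen_compl_singleton.mem_nhds (hne t ht))
    have h2 := (h1.differentiableAt (by norm_num)).hasFDerivAt.comp_hasDerivAt t (hγ t ht).2.1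
    rw [h.fderiv_kap hfr (hne t ht) (hγ t ht).2.2.1 (hγ t ht).2.2.2] at h2
    exact h2
  have h0 : (0 : ℝ) ∈ Ioo (-ε) ε := ⟨by linarith, hε⟩
  intro t ht
  refine (convex_Ioo (-ε) ε).is_const_of_fderivWithin_eq_zero (𝕜 := ℝ) (f := fun s => κ (γ s))
    (fun s hs => (hder s hs).differentiableAt.differentiableWithinAt) ?_ ht h0
  intro s hs
  have hu : UniqueDiffWithinAt ℝ (Ioo (-ε) ε) s := isOpen_Ioo.uniqueDiffWithinAt hs
  rw [fderivWithin_eq_fderiv hu (hder s hs).differentiableAt]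
  ext
  simp [(hder s hs).deriv]

theorem Umb.false {V : E → E} {κ : E → ℝ} (h : Umb V κ) (hfr : 4 ≤ finrank ℝ E) : False := by
  have hfr3 : 3 ≤ finrank ℝ E := by omega
  have : Nontrivial E := by
    apply Module.nontrivial_of_finrank_pos (R := ℝ)
    omega
  have hne1 : ∀ x : E, ‖x‖ = 1 → x ≠ 0 := by
    intro x hx h0; rw [h0, norm_zero] at hx; exact zero_ne_one hx
  have hV1 : ContDiffOn ℝ 1 V {0}ᶜ := h.smooth.of_le (by norm_num)
  have hSne : (sphere (0 : E) 1).Nonempty := NormedSpace.sphere_nonempty.2 zero_le_one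
  have hSc : IsCompact (sphere (0 : E) 1) := isCompact_sphere 0 1
  have hsub : sphere (0 : E) 1 ⊆ {0}ᶜ := by
    intro x hx
    exact hne1 x (by simpa using hx)
  have hκc : ContinuousOn κ (sphere (0 : E) 1) := (h.contDiffOn_kap hfr3).continuousOn.mono hsub
  have hBc : ContinuousOn (BV V κ) (sphere (0 : E) 1) :=
    (h.contDiffOn_BV hfr3).continuousOn.mono hsub
  obtain ⟨x₁, hx₁, hmin'⟩ := hSc.exists_isMinOn hSne hκc
  obtain ⟨κ₀, hκ₀⟩ : ∃ k, k = κ x₁ := ⟨_, rfl⟩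
  have hmin : ∀ z : E, ‖z‖ = 1 → κ₀ ≤ κ z := by
    intro z hz
    rw [hκ₀]
    exact hmin' (by simpa using hz)
  -- the minimum set
  obtain ⟨K, hK⟩ : ∃ K : Set E, K = sphere (0 : E) 1 ∩ κ ⁻¹' {κ₀} := ⟨_, rfl⟩
  have hKc : IsCompact K := by
    rw [hK]
    exact hSc.of_isClosed_subset (hκc.preimage_isClosed_of_isClosed isClosed_sphere
      isClosed_singleton) inter_subset_left
  have hKne : K.Nonempty := ⟨x₁, by rw [hK]; exact ⟨hx₁, by simp [hκ₀]⟩⟩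
  have hKmem : ∀ x, x ∈ K ↔ ‖x‖ = 1 ∧ κ x = κ₀ := by
    intro x; rw [hK]; simp
  have hKsub : K ⊆ sphere (0 : E) 1 := by rw [hK]; exact inter_subset_left
  obtain ⟨x₀, hx₀K, hmax'⟩ := hKc.exists_isMaxOn hKne
    ((hBc.mono hKsub).norm.pow 2)
  have hmax : ∀ x ∈ K, ‖BV V κ x‖ ^ 2 ≤ ‖BV V κ x₀‖ ^ 2 := fun x hx => hmax' hx
  obtain ⟨hx₀1, hx₀κ⟩ := (hKmem x₀).1 hx₀K
  have hx₀0 := hne1 x₀ hx₀1
  have hDV : fderiv ℝ κ x₀ (V x₀) = 0 := P9_kap_crit h hfr3 hmin hx₀1 hx₀κ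
  have hdB : HasFDerivAt (BV V κ) (fderiv ℝ (BV V κ) x₀) x₀ := by
    have h1 : ContDiffAt ℝ 1 (BV V κ) x₀ :=
      (h.contDiffOn_BV hfr3).contDiffAt (isOpen_compl_singleton.mem_nhds hx₀0)
    exact (h1.differentiableAt (by norm_num)).hasFDerivAt
  obtain ⟨hxB, hVB⟩ := h.inner_BV hx₀0
  rw [hx₀κ] at hVB
  have hVV : ⟪V x₀, V x₀⟫ = 1 := by
    rw [real_inner_self_eq_norm_sq, h.unit x₀ hx₀0]; norm_num
  have hxx : ⟪x₀, x₀⟫ = 1 := by
    rw [real_inner_self_eq_norm_sq, hx₀1]; norm_num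
  -- step 4
  have hB0 : ‖BV V κ x₀‖ ^ 2 = 1 + κ₀ ^ 2 := by
    obtain ⟨γ, ε, hε, hγ0, hγ⟩ := exists_curve hV1 h.unit h.tang hx₀1 (BV V κ x₀)
    have h0 : (0 : ℝ) ∈ Ioo (-ε) ε := ⟨by linarith, hε⟩
    have hκγ := P9_curve_mem h hfr hε hγ
    obtain ⟨-, hd0, hi1, hi2⟩ := hγ 0 h0
    rw [hγ0] at hd0 hi1 hi2
    obtain ⟨W, hW⟩ : ∃ W, W = WY V (BV V κ x₀) x₀ := ⟨_, rfl⟩
    rw [← hW] at hd0 hi1 hi2
    have hWe : W = BV V κ x₀ + x₀ + κ₀ • V x₀ := by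
      rw [hW, WY, hxB, hVB, hx₀1]
      simp
    have hdBγ : HasDerivAt (fun t => BV V κ (γ t)) (fderiv ℝ (BV V κ) x₀ W) 0 := by
      have h1 : HasFDerivAt (BV V κ) (fderiv ℝ (BV V κ) x₀) (γ 0) := by rw [hγ0]; exact hdB
      exact h1.comp_hasDerivAt 0 hd0
    have hdB' : fderiv ℝ (BV V κ) x₀ W = ⟪BV V κ x₀, W⟫ • BV V κ x₀ := by
      rw [h.fderiv_BV hfr hx₀0 hi1 hi2, hDV, zero_smul, zero_add]
    have hloc : IsLocalMax (fun t => ⟪BV V κ (γ t), BV V κ (γ t)⟫) 0 := by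
      refine Filter.mem_of_superset (Ioo_mem_nhds h0.1 h0.2) ?_
      intro t ht
      simp only [Set.mem_ofPred_eq, real_inner_self_eq_norm_sq, hγ0]
      apply hmax
      rw [hKmem]
      refine ⟨(hγ t ht).1, ?_⟩
      rw [hκγ t ht, hγ0, hx₀κ]
    have hder0 := hdBγ.inner ℝ hdBγ
    have hz := hloc.hasDerivAt_eq_zero hder0
    rw [hγ0, hdB'] at hz
    rw [inner_smul_right, inner_smul_left] at hz
    simp only [conj_trivial] at hz
    have hBW : ⟪BV V κ x₀, W⟫ = ‖W‖ ^ 2 := by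
      have h1 : BV V κ x₀ = W - x₀ - κ₀ • V x₀ := by rw [hWe]; abel
      rw [h1, inner_sub_left, inner_sub_left, inner_smul_left, hi1, hi2,
        real_inner_self_eq_norm_sq]
      simp
    have hBB : (1 : ℝ) ≤ ⟪BV V κ x₀, BV V κ x₀⟫ := by
      rw [real_inner_self_eq_norm_sq]
      have h1 := abs_real_inner_le_norm x₀ (BV V κ x₀)
      rw [hxB, hx₀1] at h1
      simp only [abs_neg, abs_one, one_mul] at h1
      nlinarith [norm_nonneg (BV V κ x₀)]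
    rw [hBW] at hz
    have hW0 : ‖W‖ ^ 2 = 0 := by
      nlinarith [sq_nonneg ‖W‖]
    have hW0' : W = 0 := by
      have := pow_eq_zero_iff (two_ne_zero) |>.1 hW0
      exact norm_eq_zero.1 this
    have hBe : BV V κ x₀ = -x₀ - κ₀ • V x₀ := by
      have h1 : BV V κ x₀ = W - x₀ - κ₀ • V x₀ := by rw [hWe]; abel
      rw [h1, hW0', zero_sub]
    rw [← real_inner_self_eq_norm_sq]
    nth_rw 1 [hBe]
    rw [inner_sub_left, inner_neg_left, inner_smul_left, hxB, hVB]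
    simp only [conj_trivial]
    ring
  -- step 5
  have hBK : ∀ x ∈ K, BV V κ x = -x - κ₀ • V x := by
    intro x hx
    obtain ⟨hx1, hxκ⟩ := (hKmem x).1 hx
    have hx0 := hne1 x hx1
    obtain ⟨hxB', hVB'⟩ := h.inner_BV hx0
    rw [hxκ] at hVB'
    have hsq : ‖BV V κ x + x + κ₀ • V x‖ ^ 2 = ‖BV V κ x‖ ^ 2 - 1 - κ₀ ^ 2 := by
      have h1 : ⟪BV V κ x, x⟫ = -1 := by rw [real_inner_comm]; exact hxB'
      have h2 : ⟪BV V κ x, V x⟫ = -κ₀ := by rw [real_inner_comm]; exact hVB'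
      have h3 : ⟪x, V x⟫ = 0 := h.tang x
      rw [norm_add_sq_real, norm_add_sq_real, inner_add_left, inner_smul_right, inner_smul_right,
        h1, h2, h3, norm_smul, hx1, h.unit x hx0, Real.norm_eq_abs, mul_one, sq_abs]
      ring
    have hle : ‖BV V κ x + x + κ₀ • V x‖ ^ 2 ≤ 0 := by
      rw [hsq]
      have := hmax x hx
      rw [hB0] at this
      linarith
    have h0 : BV V κ x + x + κ₀ • V x = 0 := by
      have h1 : ‖BV V κ x + x + κ₀ • V x‖ ^ 2 = 0 := le_antisymm hle (sq_nonneg _)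
      have := pow_eq_zero_iff (two_ne_zero) |>.1 h1
      exact norm_eq_zero.1 this
    have h2 : BV V κ x = (BV V κ x + x + κ₀ • V x) - x - κ₀ • V x := by abel
    rw [h2, h0, zero_sub]
  -- step 6
  obtain ⟨Y, hY0, hYx, hYV⟩ : ∃ Y : E, Y ≠ 0 ∧ ⟪x₀, Y⟫ = 0 ∧ ⟪V x₀, Y⟫ = 0 := by
    classical
    let S : Submodule ℝ E := Submodule.span ℝ (({x₀, V x₀} : Finset E) : Set E)
    have hS : finrank ℝ S ≤ 2 := (finrank_span_finset_le_card _).trans Finset.card_le_two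
    have hsum := Submodule.finrank_add_finrank_orthogonal S
    have hpos : 0 < finrank ℝ Sᗮ := by omega
    have : Nontrivial Sᗮ := Module.nontrivial_of_finrank_pos hpos
    obtain ⟨⟨Y, hYS⟩, hYne⟩ := exists_ne (0 : Sᗮ)
    refine ⟨Y, fun h0 => hYne (by ext; exact h0), ?_, ?_⟩
    · exact Submodule.inner_right_of_mem_orthogonal (Submodule.subset_span (by simp)) hYS
    · exact Submodule.inner_right_of_mem_orthogonal (Submodule.subset_span (by simp)) hYS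
  obtain ⟨γ, ε, hε, hγ0, hγ⟩ := exists_curve hV1 h.unit h.tang hx₀1 Y
  have h0 : (0 : ℝ) ∈ Ioo (-ε) ε := ⟨by linarith, hε⟩
  have hκγ := P9_curve_mem h hfr hε hγ
  obtain ⟨-, hd0, -, -⟩ := hγ 0 h0
  have hWY : WY V Y x₀ = Y := by
    rw [WY, hYx, hYV]; simp
  rw [hγ0, hWY] at hd0
  have hd1 : HasDerivAt (fun t => BV V κ (γ t)) (fderiv ℝ (BV V κ) x₀ Y) 0 := by
    have h1 : HasFDerivAt (BV V κ) (fderiv ℝ (BV V κ) x₀) (γ 0) := by rw [hγ0]; exact hdB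
    exact h1.comp_hasDerivAt 0 hd0
  have hdV : HasFDerivAt V (fderiv ℝ V x₀) (γ 0) := by
    rw [hγ0]
    have h1 : ContDiffAt ℝ 1 V x₀ := hV1.contDiffAt (isOpen_compl_singleton.mem_nhds hx₀0)
    exact (h1.differentiableAt (by norm_num)).hasFDerivAt
  have hd2 : HasDerivAt (fun t => -γ t - κ₀ • V (γ t)) (-Y - κ₀ • fderiv ℝ V x₀ Y) 0 :=
    hd0.neg.sub ((hdV.comp_hasDerivAt 0 hd0).const_smul κ₀)
  have heq : (fun t => BV V κ (γ t)) =ᶠ[𝓝 0] fun t => -γ t - κ₀ • V (γ t) := by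
    refine Filter.mem_of_superset (Ioo_mem_nhds h0.1 h0.2) ?_
    intro t ht
    apply hBK
    rw [hKmem]
    refine ⟨(hγ t ht).1, ?_⟩
    rw [hκγ t ht, hγ0, hx₀κ]
  have hd3 := hd2.congr_of_eventuallyEq heq
  have huniq := hd1.unique hd3
  rw [h.fderiv_BV hfr hx₀0 hYx hYV, hDV, zero_smul, zero_add, hBK x₀ hx₀K, inner_sub_left,
    inner_neg_left, inner_smul_left, hYx, hYV, h.umb x₀ hx₀0 Y hYx hYV, hx₀κ] at huniq
  simp only [neg_zero, mul_zero, sub_zero, zero_smul] at huniq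
  have h4 : (1 + κ₀ ^ 2) • Y = 0 := by
    have h5 : (1 + κ₀ ^ 2) • Y = -(-Y - κ₀ • κ₀ • Y) := by
      rw [smul_smul, add_smul, one_smul, sq]; abel
    rw [h5, ← huniq, neg_zero]
  rcases smul_eq_zero.1 h4 with h5 | h5
  · nlinarith [sq_nonneg κ₀]
  · exact hY0 h5

end geometry

end Pool.Agent.Helper19.PQ
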