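import Mathlib
import Pool.Agent.Helper19.PQ.EqCase
import Pool.Agent.Helper19.PQ.P9
import Pool.Agent.Helper19.PS.SharpC

/-!
# Project PQ: the minimal volume of unit fields is not attained
-/

open MeasureTheory Set Metric Filter Module Matrix
open scoped NNReal Topology RealInnerProductSpace ENNReal Real ContDiff Manifold

namespace Pool.Agent.Helper19.PQ

open Pool.Agent.Helper20.VF Pool.Agent.Helper19.PS

section

variable {E : Type*} [NormedAddCommGroup E] [InnerProductSpace ℝ E] [FiniteDimensional ℝ E]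
variable {k : ℕ} [Fact (finrank ℝ E = k + 1)]

lemma contDiffAt_radExt_two {V : sphere (0 : E) 1 → E} (hV : ContMDiff (𝓡 k) 𝓘(ℝ, E) 2 V) {y0 : E}
    (hy0 : y0 ≠ 0) : ContDiffAt ℝ 2 (radExt V) y0 := by
  have hn0 : 0 < ‖y0‖ := norm_pos_iff.2 hy0
  let χ : ContDiffBump y0 := ⟨‖y0‖ / 4, ‖y0‖ / 2, by positivity, by linarith⟩
  set F : E → E := fun y => y0 + χ y • (y - y0) with hF
  have hFc : ContDiff ℝ 2 F :=
    contDiff_const.add ((χ.contDiff).smul (contDiff_id.sub contDiff_const))
  have hF0 : ∀ y, F y ≠ 0 := by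
    intro y h
    have h1 : ‖F y - y0‖ < ‖y0‖ := by
      rw [hF]
      simp only [add_sub_cancel_left, norm_smul, Real.norm_eq_abs, abs_of_nonneg χ.nonneg]
      by_cases hy : y ∈ ball y0 (‖y0‖ / 2)
      · rw [mem_ball_iff_norm] at hy
        calc χ y * ‖y - y0‖ ≤ 1 * ‖y - y0‖ := by
              exact mul_le_mul_of_nonneg_right χ.le_one (norm_nonneg _)
          _ < ‖y0‖ := by linarith
      · have : χ y = 0 := χ.zero_of_le_dist (by
          rw [mem_ball, not_lt] at hy
          exact hy)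
        rw [this, zero_mul]
        exact hn0
    rw [h, zero_sub, norm_neg] at h1
    exact lt_irrefl _ h1
  set N : E → E := fun y => ‖F y‖⁻¹ • F y with hN
  have hNc : ContDiff ℝ 2 N := (ContDiff.inv (hFc.norm ℝ hF0) (fun y => norm_ne_zero_iff.2 (hF0 y))).smul hFc
  have hNs : ∀ y, N y ∈ sphere (0 : E) 1 := fun y => by
    rw [mem_sphere_zero_iff_norm]
    exact norm_normalize (hF0 y)
  have h2 : ContMDiff 𝓘(ℝ, E) (𝓡 k) 2 (Set.codRestrict N (sphere 0 1) hNs) :=
    (contMDiff_iff_contDiff.2 hNc).codRestrict_sphere hNs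
  have h3 : ContDiff ℝ 2 (V ∘ Set.codRestrict N (sphere 0 1) hNs) :=
    contMDiff_iff_contDiff.1 (hV.comp h2)
  refine h3.contDiffAt.congr_of_eventuallyEq ?_
  filter_upwards [ball_mem_nhds y0 (by positivity : 0 < ‖y0‖ / 4)] with y hy
  have h4 : χ y = 1 := χ.one_of_mem_closedBall (ball_subset_closedBall hy)
  have h5 : F y = y := by simp [hF, h4]
  have hy1 : y ≠ 0 := by rw [← h5]; exact hF0 y
  rw [radExt_of_ne V hy1]
  simp only [Function.comp_apply]
  congr 1
  apply Subtype.ext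
  rw [Set.val_codRestrict_apply]
  simp only [hN, h5]

end

/-- **Strict inequality for unit fields.** -/
theorem strict_unit (m : ℕ) (hm : 3 ≤ m) {E : Type*} [NormedAddCommGroup E]
    [InnerProductSpace ℝ E] [FiniteDimensional ℝ E] [MeasurableSpace E] [BorelSpace E]
    [Fact (finrank ℝ E = 2 * m + 1 + 1)]
    (W : sphere (0 : E) 1 → E) (hW : ContMDiff (𝓡 (2 * m + 1)) 𝓘(ℝ, E) 2 W)
    (htan : ∀ x : sphere (0 : E) 1, ⟪(x : E), W x⟫ = 0) (hnorm : ∀ x, ‖W x‖ = 1) :
    cst m * (volume : Measure E).toSphere.real univ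
      < ∫ u : sphere (0 : E) 1, Jd (radExt W) u ∂(volume : Measure E).toSphere := by
  have hfr : finrank ℝ E = 2 * m + 2 := Fact.out (p := finrank ℝ E = 2 * m + 1 + 1)
  have hU := uField_radExt (hW.of_le one_le_two) htan hnorm
  by_contra hcon
  rw [not_lt] at hcon
  have h1 := eq_all m hm hfr hU hcon
  choose! κ hκ using h1
  have h2 : Umb (radExt W) κ :=
    { smooth := fun y hy => (contDiffAt_radExt_two hW hy).contDiffWithinAt
      homog := hU.homog
      unit := hU.unit
      tang := hU.tang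
      umb := hκ }
  exact h2.false (by omega)

/-- **Strict inequality for fields of constant length.** -/
theorem strict_r (m : ℕ) (hm : 3 ≤ m) {E : Type*} [NormedAddCommGroup E]
    [InnerProductSpace ℝ E] [FiniteDimensional ℝ E] [MeasurableSpace E] [BorelSpace E]
    [Fact (finrank ℝ E = 2 * m + 1 + 1)] {r : ℝ} (hr : 0 < r)
    (W : sphere (0 : E) 1 → E) (hW : ContMDiff (𝓡 (2 * m + 1)) 𝓘(ℝ, E) 2 W)
    (htan : ∀ x : sphere (0 : E) 1, ⟪(x : E), W x⟫ = 0) (hnorm : ∀ x, ‖W x‖ = r) :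
    ((∑ j ∈ Finset.range (m + 1), (m.choose j : ℝ) ^ 2 / ((2 * m).choose (2 * j) : ℝ) * r ^ (2 * j))
        + min 1 (r ^ (2 * m)) * (cst m - 4 ^ m / ((2 * m).choose m : ℝ)))
          * (volume : Measure E).toSphere.real univ
      < fieldVolume W := by
  set V : sphere (0 : E) 1 → E := fun x => r⁻¹ • W x with hVdef
  have hVW : W = fun x => r • V x := by
    funext x
    rw [hVdef, smul_smul, mul_inv_cancel₀ hr.ne', one_smul]
  have hVs : ContMDiff (𝓡 (2 * m + 1)) 𝓘(ℝ, E) 2 V :=
    (contDiff_const_smul (𝕜 := ℝ) (n := 2) (F := E) r⁻¹).contMDiff.comp hW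
  have hVt : ∀ x : sphere (0 : E) 1, ⟪(x : E), V x⟫ = 0 := fun x => by
    rw [hVdef]; simp only [inner_smul_right, htan, mul_zero]
  have hVu : ∀ x, ‖V x‖ = 1 := fun x => by
    rw [hVdef]
    simp only [norm_smul, norm_inv, Real.norm_eq_abs, abs_of_pos hr, hnorm]
    exact inv_mul_cancel₀ hr.ne'
  have hfr : finrank ℝ E = 2 * m + 2 := Fact.out (p := finrank ℝ E = 2 * m + 1 + 1)
  have hnt : Nontrivial E := Module.nontrivial_of_finrank_pos (R := ℝ) (by omega)
  have hU := uField_radExt (hVs.of_le one_le_two) hVt hVu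
  have hst := strict_unit m hm V hVs hVt hVu
  set S := (volume : Measure E).toSphere with hS
  have hS0 : 0 < S.real univ := by
    rw [hS, measureReal_def]
    refine ENNReal.toReal_pos ?_ (measure_ne_top _ _)
    rw [Measure.toSphere_apply_univ]
    refine mul_ne_zero ?_ ?_
    · exact_mod_cast (by omega : finrank ℝ E ≠ 0)
    · exact (measure_ball_pos _ _ one_pos).ne'
  -- the average of the strict inequality
  set B' : ℝ := (∫ u : sphere (0 : E) 1, Jd (radExt V) u ∂S) / S.real univ with hB'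
  have hB1 : B' * S.real univ = ∫ u : sphere (0 : E) 1, Jd (radExt V) u ∂S :=
    div_mul_cancel₀ _ hS0.ne'
  have hB2 : cst m < B' := by
    rw [hB', lt_div_iff₀ hS0]
    exact hst
  have h := main_r_sharp (r := r) (b := min 1 (r ^ 2)) (B := B') (by omega) hfr hU hr rfl hB1.le
  have e1 : fieldVolume W = ∫ u : sphere (0 : E) 1, volDens (r • Lw (radExt V) u)
      ∂(volume : Measure E).toSphere := by
    unfold fieldVolume
    refine integral_congr_ae (Eventually.of_forall (fun x => ?_))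
    simp only
    rw [hVW, covDeriv_const_smul, volDens]
  rw [e1]
  refine lt_of_lt_of_le ?_ h
  refine mul_lt_mul_of_pos_right ?_ hS0
  have hb : (min 1 (r ^ 2)) ^ m = min 1 (r ^ (2 * m)) := by
    rcases le_total 1 (r ^ 2) with h1 | h1
    · rw [min_eq_left h1, one_pow, pow_mul, min_eq_left (one_le_pow₀ h1)]
    · rw [min_eq_right h1, pow_mul, min_eq_right (pow_le_one₀ (by positivity) h1)]
  rw [hb, ← sum_choose_sq, mul_sub, Finset.mul_sum]
  have e2 : ∀ j ∈ Finset.range (m + 1),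
      ((r ^ 2) ^ j - min 1 (r ^ (2 * m))) * (cj m j * (m.choose j : ℝ))
      = (m.choose j : ℝ) ^ 2 / ((2 * m).choose (2 * j) : ℝ) * r ^ (2 * j)
        - min 1 (r ^ (2 * m)) * ((m.choose j : ℝ) ^ 2 / ((2 * m).choose (2 * j) : ℝ)) := by
    intro j _
    rw [cj, ← pow_mul]
    ring
  rw [Finset.sum_congr rfl e2, Finset.sum_sub_distrib]
  have hmin : 0 < min 1 (r ^ (2 * m)) := lt_min one_pos (pow_pos hr _)
  have := mul_lt_mul_of_pos_left hB2 hmin
  linarith

end Pool.Agent.Helper19.PQ
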